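import Pool.Agent.T6.H68.Tip.Ser

set_option autoImplicit false

/-! # Limits of the twisted coefficient sums -/

namespace Pool.Agent.T6.H68.Tip

open Complex Metric Set Filter Topology Pool.Agent.H712R2 Pool.Agent.H713R2 N62a1eb23

theorem tendsto_ofReal_zero : Tendsto (fun s : ℝ => (s : ℂ)) (𝓝[>] 0) (𝓝 0) := by
  have := (Complex.continuous_ofReal.tendsto (0 : ℝ)).mono_left
    (nhdsWithin_le_nhds (s := Ioi (0 : ℝ)))
  rwa [Complex.ofReal_zero] at this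

theorem tendsto_mul_log_zero :
    Tendsto (fun s : ℝ => (s : ℂ) * Complex.log s) (𝓝[>] 0) (𝓝 0) := by
  have h1 := (Real.continuous_mul_log.tendsto (0 : ℝ)).mono_left
    (nhdsWithin_le_nhds (s := Ioi (0 : ℝ)))
  rw [zero_mul] at h1
  have h2 := (Complex.continuous_ofReal.tendsto (0 : ℝ)).comp h1
  rw [Complex.ofReal_zero] at h2
  refine h2.congr' ?_
  filter_upwards [self_mem_nhdsWithin] with s hs
  have hs' : (0 : ℝ) < s := hs
  simp only [Function.comp]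
  rw [Complex.ofReal_mul, Complex.ofReal_log hs'.le]

theorem tendsto_exp_one : Tendsto (fun s : ℝ => Complex.exp (s : ℂ)) (𝓝[>] 0) (𝓝 1) := by
  have := (Complex.continuous_exp.tendsto (0 : ℂ)).comp tendsto_ofReal_zero
  rwa [Complex.exp_zero] at this

theorem tendsto_pow_zero' (K : ℝ) {j : ℕ} (hj : j ≠ 0) :
    Tendsto (fun s : ℝ => K * s ^ j) (𝓝[>] 0) (𝓝 0) := by
  have h : Continuous fun s : ℝ => K * s ^ j := by fun_prop
  have h2 := (h.tendsto 0).mono_left (nhdsWithin_le_nhds (s := Ioi (0 : ℝ)))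
  rwa [zero_pow hj, mul_zero] at h2

theorem near_zero : ∀ᶠ s : ℝ in 𝓝[>] 0, 0 < s ∧ s ≤ (1 / 200) ^ 4 := by
  filter_upwards [Ioo_mem_nhdsGT (show (0 : ℝ) < (1 / 200) ^ 4 by positivity)] with s hs
  exact ⟨hs.1, hs.2.le⟩

theorem limits {ψ : ℂ → ℂ} {b : ℕ → ℂ} (hψ : IsExteriorMap (multibrotSet 2) ψ)
    (hb : HasLaurent ψ b) :
    Tendsto (fun s : ℝ => FF b 0 (Complex.exp (-(s : ℂ)))) (𝓝[>] 0) (𝓝 (-1)) ∧
    Tendsto (fun s : ℝ => FF b 1 (Complex.exp (-(s : ℂ)))) (𝓝[>] 0) (𝓝 (-1)) ∧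
    Tendsto (fun s : ℝ => FF b 2 (Complex.exp (-(s : ℂ)))) (𝓝[>] 0) (𝓝 (-2)) ∧
    Tendsto (fun s : ℝ => FF b 3 (Complex.exp (-(s : ℂ)))) (𝓝[>] 0) (𝓝 (-1)) ∧
    ∃ K : ℝ, ∀ᶠ s : ℝ in 𝓝[>] 0, ‖FF b 4 (Complex.exp (-(s : ℂ))) +
      9 / Real.log 2 * Real.log s‖ ≤ K := by
  obtain ⟨K, hK, hE⟩ := E_bounds hψ hb
  have z0 : Tendsto (fun s : ℝ => E0 b s) (𝓝[>] 0) (𝓝 0) := by
    refine squeeze_zero_norm' ?_ (tendsto_pow_zero' K (j := 4) (by norm_num))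
    filter_upwards [near_zero] with s hs using (hE s hs.1 hs.2).1
  have z1 : Tendsto (fun s : ℝ => E1 b s) (𝓝[>] 0) (𝓝 0) := by
    refine squeeze_zero_norm' ?_ (tendsto_pow_zero' K (j := 3) (by norm_num))
    filter_upwards [near_zero] with s hs using (hE s hs.1 hs.2).2.1
  have z2 : Tendsto (fun s : ℝ => E2 b s) (𝓝[>] 0) (𝓝 0) := by
    refine squeeze_zero_norm' ?_ (tendsto_pow_zero' K (j := 2) (by norm_num))
    filter_upwards [near_zero] with s hs using (hE s hs.1 hs.2).2.2.1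
  have z3 : Tendsto (fun s : ℝ => E3 b s) (𝓝[>] 0) (𝓝 0) := by
    refine squeeze_zero_norm' ?_ (tendsto_pow_zero' K (j := 1) (by norm_num))
    filter_upwards [near_zero] with s hs
    rw [pow_one]
    exact (hE s hs.1 hs.2).2.2.2.1
  have t1 := tendsto_ofReal_zero
  have t2 := tendsto_mul_log_zero
  have t3 := tendsto_exp_one
  refine ⟨?_, ?_, ?_, ?_, ?_⟩
  · have h := (((z0.add t3).sub_const (2 : ℂ)).sub ((t1.pow 2).const_mul (3 / 2 : ℂ))).sub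
      (((t1.pow 3).mul t2).const_mul (3 * AA : ℂ))
    have e : (0 + 1 - 2 - 3 / 2 * 0 ^ 2 - 3 * (AA : ℂ) * (0 ^ 3 * 0) : ℂ) = -1 := by ring
    rw [e] at h
    refine h.congr fun s => ?_
    unfold E0
    ring
  · have h := (((z1.neg.sub t3).add (t1.const_mul (3 : ℂ)))).add
      ((((t1.pow 2).mul t2).const_mul (4 : ℂ)).add (t1.pow 3) |>.const_mul (3 * AA : ℂ))
    have e : (-0 - 1 + 3 * 0 + 3 * (AA : ℂ) * (4 * (0 ^ 2 * 0) + 0 ^ 3) : ℂ) = -1 := by ring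
    rw [e] at h
    refine h.congr fun s => ?_
    unfold E1
    ring
  · have h := (((z2.add t3).sub_const (3 : ℂ))).sub
      (((t1.mul t2).const_mul (12 : ℂ)).add ((t1.pow 2).const_mul (7 : ℂ)) |>.const_mul (3 * AA : ℂ))
    have e : (0 + 1 - 3 - 3 * (AA : ℂ) * (12 * (0 * 0) + 7 * 0 ^ 2) : ℂ) = -2 := by ring
    rw [e] at h
    refine h.congr fun s => ?_
    unfold E2
    ring
  · have h := (z3.neg.sub t3).add
      ((t2.const_mul (24 : ℂ)).add (t1.const_mul (26 : ℂ)) |>.const_mul (3 * AA : ℂ))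
    have e : (-0 - 1 + 3 * (AA : ℂ) * (24 * 0 + 26 * 0) : ℂ) = -1 := by ring
    rw [e] at h
    refine h.congr fun s => ?_
    unfold E3
    ring
  · refine ⟨K + 3 + 150, ?_⟩
    filter_upwards [near_zero] with s hs
    have h1 := (hE s hs.1 hs.2).2.2.2.2
    have h2 : (Real.log s : ℂ) = Complex.log s := Complex.ofReal_log hs.1.le
    have h3 : (3 * AA * 24 : ℂ) = 9 / Real.log 2 := by
      have h5 : (3 * AA * 24 : ℝ) = 9 / Real.log 2 := by
        unfold AA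
        have h4 : Real.log 2 ≠ 0 := (Real.log_pos (by norm_num)).ne'
        field_simp
        norm_num
      exact_mod_cast h5
    have h4 : FF b 4 (Complex.exp (-(s : ℂ))) + 9 / Real.log 2 * Real.log s =
        E4 b s + Complex.exp s - 3 * AA * 50 := by
      rw [h2, ← h3]
      unfold E4
      ring
    rw [h4]
    have h5 : ‖Complex.exp (s : ℂ)‖ ≤ 3 := by
      rw [Complex.norm_exp, Complex.ofReal_re]
      have h6 : Real.exp s ≤ Real.exp 1 := Real.exp_le_exp.2 (hs.2.trans (by norm_num))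
      have := Real.exp_one_lt_d9
      linarith
    have h6 : ‖3 * (AA : ℂ) * 50‖ ≤ 150 := by
      rw [norm_mul, norm_mul, Complex.norm_real, Real.norm_eq_abs, abs_of_pos AA_pos]
      simp only [Complex.norm_ofNat]
      have := AA_le
      linarith
    have h7 := norm_sub_le (E4 b s + Complex.exp s) (3 * AA * 50)
    have h8 := norm_add_le (E4 b s) (Complex.exp s)
    linarith

theorem tendsto_neg_log : Tendsto (fun x : ℝ => -Real.log x) (𝓝[<] 1) (𝓝[>] 0) := by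
  rw [tendsto_nhdsWithin_iff]
  constructor
  · have h0 : ContinuousAt (fun x : ℝ => -Real.log x) 1 :=
      (Real.continuousAt_log (one_ne_zero : (1 : ℝ) ≠ 0)).neg
    have h := h0.tendsto.mono_left (nhdsWithin_le_nhds (s := Iio (1 : ℝ)))
    rw [Real.log_one, neg_zero] at h
    exact h
  · filter_upwards [Ioo_mem_nhdsLT (show (0 : ℝ) < 1 by norm_num)] with x hx
    have := Real.log_neg hx.1 hx.2
    show 0 < -Real.log x
    linarith

theorem FF_at {ψ : ℂ → ℂ} {b : ℕ → ℂ} (hb : HasLaurent ψ b) (k : ℕ) {x : ℝ} (hx0 : 0 < x)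
    (hx1 : x < 1) : FF b k (Complex.exp (-((-Real.log x : ℝ) : ℂ))) =
      ∑' m : ℕ, (-1) ^ m * (m : ℂ) ^ k * b m * (x : ℂ) ^ m := by
  have h1 : Complex.exp (-((-Real.log x : ℝ) : ℂ)) = (x : ℂ) := by
    rw [← Complex.ofReal_neg, neg_neg, ← Complex.ofReal_exp, Real.exp_log hx0]
  rw [h1]
  apply FF_eq hb
  rw [mem_ball_zero_iff, Complex.norm_real, Real.norm_eq_abs, abs_of_pos hx0]
  exact hx1

theorem sums {ψ : ℂ → ℂ} {b : ℕ → ℂ} (hψ : IsExteriorMap (multibrotSet 2) ψ)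
    (hb : HasLaurent ψ b) :
    Tendsto (fun x : ℝ => ∑' m : ℕ, (-1) ^ m * (m : ℂ) ^ 0 * b m * (x : ℂ) ^ m)
      (𝓝[<] 1) (𝓝 (-1)) ∧
    Tendsto (fun x : ℝ => ∑' m : ℕ, (-1) ^ m * (m : ℂ) ^ 1 * b m * (x : ℂ) ^ m)
      (𝓝[<] 1) (𝓝 (-1)) ∧
    Tendsto (fun x : ℝ => ∑' m : ℕ, (-1) ^ m * (m : ℂ) ^ 2 * b m * (x : ℂ) ^ m)
      (𝓝[<] 1) (𝓝 (-2)) ∧
    Tendsto (fun x : ℝ => ∑' m : ℕ, (-1) ^ m * (m : ℂ) ^ 3 * b m * (x : ℂ) ^ m)
      (𝓝[<] 1) (𝓝 (-1)) ∧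
    ∃ K : ℝ, ∀ᶠ x : ℝ in 𝓝[<] 1,
      ‖(∑' m : ℕ, (-1) ^ m * (m : ℂ) ^ 4 * b m * (x : ℂ) ^ m) -
        ((9 / Real.log 2 * Real.log (1 / (1 - x)) : ℝ) : ℂ)‖ ≤ K := by
  obtain ⟨l0, l1, l2, l3, K, l4⟩ := limits hψ hb
  have key : ∀ (k : ℕ) (L : ℂ), Tendsto (fun s : ℝ => FF b k (Complex.exp (-(s : ℂ)))) (𝓝[>] 0) (𝓝 L) →
      Tendsto (fun x : ℝ => ∑' m : ℕ, (-1) ^ m * (m : ℂ) ^ k * b m * (x : ℂ) ^ m)
      (𝓝[<] 1) (𝓝 L) := by
    intro k L hL
    refine (hL.comp tendsto_neg_log).congr' ?_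
    filter_upwards [Ioo_mem_nhdsLT (show (0 : ℝ) < 1 by norm_num)] with x hx
    exact FF_at hb k hx.1 hx.2
  refine ⟨key 0 _ l0, key 1 _ l1, key 2 _ l2, key 3 _ l3, K + 9 / Real.log 2, ?_⟩
  filter_upwards [tendsto_neg_log.eventually l4, Ioo_mem_nhdsLT (show (1 / 2 : ℝ) < 1 by norm_num)]
    with x h1 hx
  have hx0 : 0 < x := by linarith [hx.1]
  rw [FF_at hb 4 hx0 hx.2] at h1
  have hl2 : (0 : ℝ) < Real.log 2 := Real.log_pos (by norm_num)
  set s : ℝ := -Real.log x with hs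
  have h2 : 1 - x ≤ s := by
    have := Real.log_le_sub_one_of_pos hx0
    rw [hs]; linarith
  have h3 : s ≤ 2 * (1 - x) := by
    have h4 := Real.log_le_sub_one_of_pos (inv_pos.2 hx0)
    rw [Real.log_inv] at h4
    have h5 : x⁻¹ - 1 ≤ 2 * (1 - x) := by
      have : x⁻¹ - 1 = (1 - x) * x⁻¹ := by field_simp
      rw [this]
      have h6 : x⁻¹ ≤ 2 := by
        rw [inv_le_comm₀ hx0 (by norm_num)]
        linarith [hx.1]
      nlinarith [hx.2]
    rw [hs]; linarith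
  have h1x : 0 < 1 - x := by linarith [hx.2]
  have h4 : |Real.log (1 / (1 - x)) + Real.log s| ≤ 1 := by
    rw [one_div, Real.log_inv]
    have h5 := Real.log_le_log h1x h2
    have h6 := Real.log_le_log (by linarith) h3
    rw [Real.log_mul (by norm_num) h1x.ne'] at h6
    have := Real.log_two_lt_d9
    rw [abs_le]
    constructor <;> linarith
  have e1 : (∑' m : ℕ, (-1) ^ m * (m : ℂ) ^ 4 * b m * (x : ℂ) ^ m) -
        ((9 / Real.log 2 * Real.log (1 / (1 - x)) : ℝ) : ℂ) =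
      ((∑' m : ℕ, (-1) ^ m * (m : ℂ) ^ 4 * b m * (x : ℂ) ^ m) + 9 / Real.log 2 * Real.log s)
      - ((9 / Real.log 2 * (Real.log (1 / (1 - x)) + Real.log s) : ℝ) : ℂ) := by
    push_cast
    ring
  rw [e1]
  refine (norm_sub_le _ _).trans ?_
  apply add_le_add h1
  rw [Complex.norm_real, Real.norm_eq_abs, abs_mul, abs_of_pos (by positivity)]
  have h9 : (0 : ℝ) < 9 / Real.log 2 := by positivity
  nlinarith

end Pool.Agent.T6.H68.Tip
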