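import Mathlib

set_option autoImplicit false

/-! # Elementary estimates for the hyperbolic functions in a sector -/

open Complex

namespace Pool.Agent.T6.H68.Tip

theorem normSq_sinh (z : ℂ) : ‖sinh z‖ ^ 2 = Real.sinh z.re ^ 2 + Real.sin z.im ^ 2 := by
  have h : sinh z = ((Real.sinh z.re * Real.cos z.im : ℝ) : ℂ)
      + ((Real.cosh z.re * Real.sin z.im : ℝ) : ℂ) * I := by
    conv_lhs => rw [← re_add_im z]
    rw [Complex.sinh_add, Complex.cosh_mul_I, Complex.sinh_mul_I]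
    push_cast
    ring
  rw [h, ← Complex.normSq_eq_norm_sq, Complex.normSq_add_mul_I]
  have h1 := Real.cosh_sq z.re
  have h2 := Real.sin_sq_add_cos_sq z.im
  nlinarith [h1, h2, mul_comm (Real.sinh z.re ^ 2) (Real.cos z.im ^ 2)]

theorem normSq_cosh (z : ℂ) : ‖cosh z‖ ^ 2 = Real.sinh z.re ^ 2 + Real.cos z.im ^ 2 := by
  have h : cosh z = ((Real.cosh z.re * Real.cos z.im : ℝ) : ℂ)
      + ((Real.sinh z.re * Real.sin z.im : ℝ) : ℂ) * I := by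
    conv_lhs => rw [← re_add_im z]
    rw [Complex.cosh_add, Complex.cosh_mul_I, Complex.sinh_mul_I]
    push_cast
    ring
  rw [h, ← Complex.normSq_eq_norm_sq, Complex.normSq_add_mul_I]
  have h1 := Real.cosh_sq z.re
  have h2 := Real.sin_sq_add_cos_sq z.im
  nlinarith [h1, h2, mul_comm (Real.sinh z.re ^ 2) (Real.cos z.im ^ 2)]

/-- the sector `|Im z| ≤ Re z`, `0 < Re z` -/
def Sec (z : ℂ) : Prop := 0 < z.re ∧ |z.im| ≤ z.re

theorem Sec.pow {z : ℂ} (h : Sec z) (n : ℕ) : Sec (2 ^ n * z) := by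
  have h2 : (2 : ℂ) ^ n = ((2 ^ n : ℝ) : ℂ) := by push_cast; rfl
  have h3 : (0 : ℝ) < 2 ^ n := by positivity
  rw [h2]
  refine ⟨?_, ?_⟩
  · rw [re_ofReal_mul]; exact mul_pos h3 h.1
  · rw [re_ofReal_mul, im_ofReal_mul, abs_mul, abs_of_pos h3]
    exact mul_le_mul_of_nonneg_left h.2 h3.le

theorem Sec.norm_le {z : ℂ} (h : Sec z) : ‖z‖ ≤ 2 * z.re := by
  have h1 := Complex.norm_le_abs_re_add_abs_im z
  rw [abs_of_pos h.1] at h1
  linarith [h.2]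

theorem Sec.ne {z : ℂ} (h : Sec z) : z ≠ 0 := by
  rintro rfl
  simpa using h.1

theorem Sec.sinh_ge {z : ℂ} (h : Sec z) : z.re ≤ ‖sinh z‖ := by
  have h1 := normSq_sinh z
  have h2 : z.re ≤ Real.sinh z.re := Real.self_le_sinh_iff.2 h.1.le
  have h3 := norm_nonneg (sinh z)
  have h4 := h.1
  nlinarith [sq_nonneg (Real.sin z.im)]

theorem Sec.sinh_ge' {z : ℂ} (h : Sec z) : ‖z‖ / 2 ≤ ‖sinh z‖ := by
  have := h.sinh_ge
  have := h.norm_le
  linarith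

theorem Sec.sinh_ne {z : ℂ} (h : Sec z) : sinh z ≠ 0 := by
  have h1 := h.sinh_ge
  have h2 := h.1
  intro h3
  rw [h3, norm_zero] at h1
  linarith

theorem Sec.sinh_le {z : ℂ} (h : Sec z) : ‖sinh z‖ ≤ 2 * Real.sinh z.re := by
  have h1 := normSq_sinh z
  have h2 : z.re ≤ Real.sinh z.re := Real.self_le_sinh_iff.2 h.1.le
  have h5 : Real.sin z.im ^ 2 ≤ z.im ^ 2 := by
    have h6 := Real.abs_sin_le_one z.im
    have := Real.abs_sin_le_abs (x := z.im)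
    nlinarith [abs_nonneg (Real.sin z.im), sq_abs (Real.sin z.im), sq_abs z.im]
  have h7 : z.im ^ 2 ≤ z.re ^ 2 := by
    have := h.2
    have h8 := abs_nonneg z.im
    nlinarith [sq_abs z.im]
  have h9 := h.1
  have h10 := norm_nonneg (sinh z)
  by_contra hcon
  push Not at hcon
  nlinarith

theorem Sec.cosh_ge {z : ℂ} (h : Sec z) : Real.sinh z.re ≤ ‖cosh z‖ := by
  have h1 := normSq_cosh z
  have h3 := norm_nonneg (cosh z)
  have h2 : z.re ≤ Real.sinh z.re := Real.self_le_sinh_iff.2 h.1.le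
  have h4 := h.1
  by_contra hcon
  push Not at hcon
  nlinarith [sq_nonneg (Real.cos z.im)]

theorem Sec.cosh_ge' {z : ℂ} (h : Sec z) : 1 / 2 ≤ ‖cosh z‖ := by
  by_cases hx : 1 / 2 ≤ z.re
  · have h2 : z.re ≤ Real.sinh z.re := Real.self_le_sinh_iff.2 h.1.le
    linarith [h.cosh_ge]
  · push Not at hx
    have h1 := normSq_cosh z
    have h3 := norm_nonneg (cosh z)
    have h5 : 1 - z.im ^ 2 / 2 ≤ Real.cos z.im := Real.one_sub_sq_div_two_le_cos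
    have h7 : z.im ^ 2 ≤ 1 / 4 := by
      have := h.2
      have h8 := abs_nonneg z.im
      nlinarith [sq_abs z.im]
    have h9 : 1 / 2 ≤ Real.cos z.im := by linarith
    by_contra hcon
    push Not at hcon
    nlinarith [sq_nonneg (Real.sinh z.re)]

/-- `‖sinh z‖ ≤ 2 ‖cosh z‖` -/
theorem Sec.tanh_le {z : ℂ} (h : Sec z) : ‖sinh z‖ ≤ 2 * ‖cosh z‖ := by
  have := h.sinh_le
  have := h.cosh_ge
  linarith

theorem Sec.tanh_le' {z : ℂ} (h : Sec z) : ‖sinh z‖ ≤ 8 * ‖z‖ * ‖cosh z‖ := by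
  have h3 := norm_nonneg (cosh z)
  by_cases hx : 1 ≤ z.re
  · have h1 : z.re ≤ ‖z‖ := (le_abs_self _).trans (Complex.abs_re_le_norm z)
    have := h.tanh_le
    nlinarith
  · push Not at hx
    have h1 : Real.sinh z.re ≤ 2 * z.re := by
      have h4 : Real.cosh z.re ≤ 2 := by
        have h5 : Real.cosh z.re ≤ Real.cosh 1 := by
          rw [Real.cosh_le_cosh, abs_of_pos h.1, abs_one]
          exact hx.le
        have h6 : Real.cosh 1 ≤ 2 := by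
          rw [Real.cosh_eq]
          have h7 := Real.exp_one_lt_d9
          have h8 : Real.exp (-1) ≤ 1 := Real.exp_le_one_iff.2 (by norm_num)
          linarith
        linarith
      have h9 : Real.sinh z.re ≤ z.re * Real.cosh z.re := by
        have hmono : MonotoneOn (fun x : ℝ => x * Real.cosh x - Real.sinh x) (Set.Ici 0) := by
          apply monotoneOn_of_deriv_nonneg (convex_Ici 0) (by fun_prop) (by fun_prop)
          intro x hx
          rw [interior_Ici] at hx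
          have hd : HasDerivAt (fun x : ℝ => x * Real.cosh x - Real.sinh x)
              (1 * Real.cosh x + x * Real.sinh x - Real.cosh x) x :=
            ((hasDerivAt_id x).mul (Real.hasDerivAt_cosh x)).sub (Real.hasDerivAt_sinh x)
          rw [hd.deriv]
          have hx0 : (0 : ℝ) < x := hx
          have := mul_pos hx0 (Real.sinh_pos_iff.2 hx0)
          linarith
        have := hmono (Set.mem_Ici.2 le_rfl) (Set.mem_Ici.2 h.1.le) h.1.le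
        simp only [zero_mul, Real.sinh_zero, sub_zero] at this
        linarith
      nlinarith [h.1]
    have h10 : z.re ≤ ‖z‖ := (le_abs_self _).trans (Complex.abs_re_le_norm z)
    have h11 := h.sinh_le
    have h12 := h.cosh_ge'
    have h13 := h.1
    nlinarith

/-- Taylor bound for the exponential -/
theorem exp_taylor {z : ℂ} (hz : ‖z‖ ≤ 1) :
    ‖exp z - (1 + z + z ^ 2 / 2 + z ^ 3 / 6 + z ^ 4 / 24)‖ ≤ ‖z‖ ^ 5 := by
  have h := Complex.exp_bound hz (n := 5) (by norm_num)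
  simp only [Finset.sum_range_succ, Finset.sum_range_zero, Nat.factorial] at h
  have h2 : (‖z‖ ^ 5 : ℝ) * ((Nat.succ 5 : ℕ) * (((4 + 1) * ((3 + 1) * ((2 + 1) * ((1 + 1) * ((0 + 1) * 1)))) : ℕ) * (5 : ℕ) : ℝ)⁻¹) ≤ ‖z‖ ^ 5 := by
    have h3 : (0 : ℝ) ≤ ‖z‖ ^ 5 := by positivity
    norm_num
    nlinarith
  refine le_trans (le_of_eq ?_) (h.trans h2)
  congr 1
  push_cast
  ring

theorem cosh_taylor {z : ℂ} (hz : ‖z‖ ≤ 1) : ‖cosh z - (1 + z ^ 2 / 2)‖ ≤ 2 * ‖z‖ ^ 4 := by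
  have h1 := exp_taylor hz
  have h2 := exp_taylor (z := -z) (by rwa [norm_neg])
  rw [norm_neg] at h2
  have h3 : cosh z - (1 + z ^ 2 / 2) =
      ((exp z - (1 + z + z ^ 2 / 2 + z ^ 3 / 6 + z ^ 4 / 24)) +
      (exp (-z) - (1 + -z + (-z) ^ 2 / 2 + (-z) ^ 3 / 6 + (-z) ^ 4 / 24))) / 2 + z ^ 4 / 24 := by
    rw [Complex.cosh]
    ring
  rw [h3]
  have h4 : ‖z‖ ^ 5 ≤ ‖z‖ ^ 4 := by
    have := norm_nonneg z
    rw [pow_succ]
    exact mul_le_of_le_one_right (by positivity) hz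
  calc _ ≤ ‖((exp z - (1 + z + z ^ 2 / 2 + z ^ 3 / 6 + z ^ 4 / 24)) +
      (exp (-z) - (1 + -z + (-z) ^ 2 / 2 + (-z) ^ 3 / 6 + (-z) ^ 4 / 24))) / 2‖ + ‖z ^ 4 / 24‖ :=
        norm_add_le _ _
    _ ≤ (‖z‖ ^ 5 + ‖z‖ ^ 5) / 2 + ‖z‖ ^ 4 / 24 := by
        rw [norm_div, norm_div, norm_pow]
        have := norm_add_le (exp z - (1 + z + z ^ 2 / 2 + z ^ 3 / 6 + z ^ 4 / 24))
          (exp (-z) - (1 + -z + (-z) ^ 2 / 2 + (-z) ^ 3 / 6 + (-z) ^ 4 / 24))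
        have e1 : ‖(2 : ℂ)‖ = 2 := by simp
        have e2 : ‖(24 : ℂ)‖ = 24 := by simp
        rw [e1, e2]
        gcongr
        linarith
    _ ≤ 2 * ‖z‖ ^ 4 := by
        have : (0 : ℝ) ≤ ‖z‖ ^ 4 := by positivity
        linarith

theorem sinh_taylor {z : ℂ} (hz : ‖z‖ ≤ 1) : ‖sinh z - (z + z ^ 3 / 6)‖ ≤ ‖z‖ ^ 5 := by
  have h1 := exp_taylor hz
  have h2 := exp_taylor (z := -z) (by rwa [norm_neg])
  rw [norm_neg] at h2
  have h3 : sinh z - (z + z ^ 3 / 6) =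
      ((exp z - (1 + z + z ^ 2 / 2 + z ^ 3 / 6 + z ^ 4 / 24)) -
      (exp (-z) - (1 + -z + (-z) ^ 2 / 2 + (-z) ^ 3 / 6 + (-z) ^ 4 / 24))) / 2 := by
    rw [Complex.sinh]
    ring
  rw [h3, norm_div]
  have := norm_sub_le (exp z - (1 + z + z ^ 2 / 2 + z ^ 3 / 6 + z ^ 4 / 24))
    (exp (-z) - (1 + -z + (-z) ^ 2 / 2 + (-z) ^ 3 / 6 + (-z) ^ 4 / 24))
  have e1 : ‖(2 : ℂ)‖ = 2 := by simp
  rw [e1, div_le_iff₀ (by norm_num)]
  linarith

theorem sinh_taylor' {z : ℂ} (hz : ‖z‖ ≤ 1) : ‖sinh z - z‖ ≤ 2 * ‖z‖ ^ 3 := by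
  have h1 := sinh_taylor hz
  have h3 : sinh z - z = (sinh z - (z + z ^ 3 / 6)) + z ^ 3 / 6 := by ring
  rw [h3]
  have h4 : ‖z‖ ^ 5 ≤ ‖z‖ ^ 3 := pow_le_pow_of_le_one (norm_nonneg z) hz (by norm_num)
  have h5 : ‖z ^ 3 / 6‖ = ‖z‖ ^ 3 / 6 := by
    rw [norm_div, norm_pow]; simp
  have := norm_add_le (sinh z - (z + z ^ 3 / 6)) (z ^ 3 / 6)
  have h6 : (0 : ℝ) ≤ ‖z‖ ^ 3 := by positivity
  rw [h5] at this
  linarith

/-- expansion of `z / sinh z`, second order -/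
theorem Sec.phi_two {z : ℂ} (h : Sec z) (hz : ‖z‖ ≤ 1) :
    ‖z / sinh z - 1 + z ^ 2 / 6‖ ≤ 4 * ‖z‖ ^ 4 := by
  have h1 := sinh_taylor hz
  have h2 := h.sinh_ge'
  have hne := h.sinh_ne
  have hz0 : 0 < ‖z‖ := norm_pos_iff.2 h.ne
  have h3 : z / sinh z - 1 + z ^ 2 / 6 =
      (z ^ 5 / 36 - (sinh z - (z + z ^ 3 / 6)) * (1 - z ^ 2 / 6)) / sinh z := by
    field_simp
    ring
  rw [h3, norm_div, div_le_iff₀ (by linarith)]
  have h4 : ‖(1 : ℂ) - z ^ 2 / 6‖ ≤ 7 / 6 := by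
    have := norm_sub_le (1 : ℂ) (z ^ 2 / 6)
    rw [norm_one, norm_div, norm_pow] at this
    have e : ‖(6 : ℂ)‖ = 6 := by simp
    rw [e] at this
    have h5 : ‖z‖ ^ 2 ≤ 1 := pow_le_one₀ (norm_nonneg z) hz
    linarith
  have h6 : ‖z ^ 5 / 36‖ = ‖z‖ ^ 5 / 36 := by
    rw [norm_div, norm_pow]; simp
  have h7 := norm_sub_le (z ^ 5 / 36) ((sinh z - (z + z ^ 3 / 6)) * (1 - z ^ 2 / 6))
  rw [h6, norm_mul] at h7
  have h8 : ‖sinh z - (z + z ^ 3 / 6)‖ * ‖(1 : ℂ) - z ^ 2 / 6‖ ≤ ‖z‖ ^ 5 * (7 / 6) := by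
    gcongr
  have h9 : (0 : ℝ) ≤ ‖z‖ ^ 4 := by positivity
  have h10 : ‖z‖ ^ 5 = ‖z‖ ^ 4 * ‖z‖ := by ring
  nlinarith [mul_le_mul_of_nonneg_left h2 h9]

/-- expansion of `z / sinh z`, first order, in the whole sector -/
theorem Sec.phi_one {z : ℂ} (h : Sec z) : ‖z / sinh z - 1‖ ≤ 5 * ‖z‖ ^ 2 := by
  by_cases hz : ‖z‖ ≤ 1
  · have h1 := h.phi_two hz
    have h2 : z / sinh z - 1 = (z / sinh z - 1 + z ^ 2 / 6) - z ^ 2 / 6 := by ring
    rw [h2]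
    have h3 := norm_sub_le (z / sinh z - 1 + z ^ 2 / 6) (z ^ 2 / 6)
    have h4 : ‖z ^ 2 / 6‖ = ‖z‖ ^ 2 / 6 := by rw [norm_div, norm_pow]; simp
    rw [h4] at h3
    have h5 : ‖z‖ ^ 4 ≤ ‖z‖ ^ 2 := pow_le_pow_of_le_one (norm_nonneg z) hz (by norm_num)
    have h6 : (0 : ℝ) ≤ ‖z‖ ^ 2 := by positivity
    linarith
  · push Not at hz
    have h2 := h.sinh_ge'
    have h3 : ‖z / sinh z‖ ≤ 2 := by
      rw [norm_div, div_le_iff₀ (by linarith)]
      linarith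
    have h4 := norm_sub_le (z / sinh z) 1
    rw [norm_one] at h4
    nlinarith

end Pool.Agent.T6.H68.Tip
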