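import Mathlib
import Pool.Agent.T6.H68.Tip.Elem

set_option autoImplicit false

/-! # The critical orbit near the tip, compared with the Chebyshev orbit -/

open Complex

namespace Pool.Agent.T6.H68.Tip

noncomputable def q (σ : ℂ) : ℕ → ℂ
  | 0 => 2 + 3 / 2 * σ ^ 2
  | n + 1 => (q σ n) ^ 2 - 2 - 3 / 2 * σ ^ 2

theorem q_succ (σ : ℂ) (n : ℕ) : q σ (n + 1) = (q σ n) ^ 2 - 2 - 3 / 2 * σ ^ 2 := rfl

noncomputable def C (σ : ℂ) (n : ℕ) : ℂ := 2 * cosh (2 ^ n * σ)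

noncomputable def s (σ : ℂ) (n : ℕ) : ℂ := 2 ^ n * sinh (2 ^ n * σ)

noncomputable def e (σ : ℂ) (n : ℕ) : ℂ := (q σ n - C σ n) / s σ n

theorem C_succ (σ : ℂ) (n : ℕ) : C σ (n + 1) = C σ n ^ 2 - 2 := by
  unfold C
  rw [pow_succ', mul_assoc, Complex.cosh_two_mul]
  have := Complex.cosh_sq_sub_sinh_sq (2 ^ n * σ)
  linear_combination -2 * this

theorem s_succ (σ : ℂ) (n : ℕ) : s σ (n + 1) = 2 * s σ n * C σ n := by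
  unfold C s
  rw [pow_succ', mul_assoc 2 ((2 : ℂ) ^ n) σ, Complex.sinh_two_mul]
  ring

theorem s_ne {σ : ℂ} (h : Sec σ) (n : ℕ) : s σ n ≠ 0 := by
  unfold s
  exact mul_ne_zero (pow_ne_zero _ two_ne_zero) (h.pow n).sinh_ne

theorem q_eq {σ : ℂ} (h : Sec σ) (n : ℕ) : q σ n = C σ n + s σ n * e σ n := by
  unfold e
  rw [mul_div_cancel₀ _ (s_ne h n)]
  ring

noncomputable def u (σ : ℂ) (k : ℕ) : ℂ := 3 / 2 * σ ^ 2 / s σ k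

noncomputable def v (σ : ℂ) (k : ℕ) : ℂ := s σ k ^ 2 * e σ k ^ 2 / s σ (k + 1)

theorem e_succ {σ : ℂ} (h : Sec σ) (n : ℕ) :
    e σ (n + 1) = e σ n - u σ (n + 1) + v σ n := by
  have h1 := s_ne h (n + 1)
  have h2 := q_eq h n
  have h3 : e σ (n + 1) = (q σ (n + 1) - C σ (n + 1)) / s σ (n + 1) := rfl
  rw [h3, u, v]
  rw [div_eq_iff h1]
  rw [add_mul, sub_mul, div_mul_cancel₀ _ h1, div_mul_cancel₀ _ h1, q_succ, C_succ, h2, s_succ]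
  ring

noncomputable def a (σ : ℂ) : ℕ → ℂ
  | 0 => e σ 0
  | n + 1 => a σ n - u σ (n + 1)

theorem a_succ (σ : ℂ) (n : ℕ) : a σ (n + 1) = a σ n - u σ (n + 1) := rfl

theorem e_eq {σ : ℂ} (h : Sec σ) (n : ℕ) : e σ n = a σ n + ∑ k ∈ Finset.range n, v σ k := by
  induction n with
  | zero => simp [a]
  | succ n ih => rw [e_succ h, ih, a_succ, Finset.sum_range_succ]; ring

theorem e_zero {σ : ℂ} (h : Sec σ) (h1 : ‖σ‖ ≤ 1) : ‖e σ 0 - σ / 2‖ ≤ 10 * ‖σ‖ ^ 3 := by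
  have hne := h.sinh_ne
  have h2 := h.sinh_ge'
  have h0 : 0 < ‖σ‖ := norm_pos_iff.2 h.ne
  have e1 : e σ 0 - σ / 2 =
      (-2 * (cosh σ - (1 + σ ^ 2 / 2)) - (σ / 2) * (sinh σ - σ)) / sinh σ := by
    unfold e q C s
    rw [pow_zero, one_mul, one_mul]
    field_simp
    ring
  rw [e1, norm_div, div_le_iff₀ (by linarith)]
  have h3 := cosh_taylor h1
  have h4 := sinh_taylor' h1
  have h5 := norm_sub_le (-2 * (cosh σ - (1 + σ ^ 2 / 2))) ((σ / 2) * (sinh σ - σ))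
  rw [norm_mul, norm_mul, norm_div, norm_neg] at h5
  have e2 : ‖(2 : ℂ)‖ = 2 := by simp
  rw [e2] at h5
  have h6 : (0 : ℝ) ≤ ‖σ‖ ^ 3 := by positivity
  have h7 : ‖σ‖ / 2 * ‖sinh σ - σ‖ ≤ ‖σ‖ / 2 * (2 * ‖σ‖ ^ 3) := by gcongr
  nlinarith [mul_le_mul_of_nonneg_left h2 h6]

theorem u_eq {σ : ℂ} (h : Sec σ) (k : ℕ) :
    u σ k = 3 / 2 * σ / 4 ^ k * ((2 ^ k * σ) / sinh (2 ^ k * σ)) := by
  unfold u s
  have h1 := (h.pow k).sinh_ne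
  have h2 : (4 : ℂ) ^ k = 2 ^ k * 2 ^ k := by rw [← mul_pow]; norm_num
  rw [h2]
  field_simp

theorem norm_z (σ : ℂ) (k : ℕ) : ‖(2 : ℂ) ^ k * σ‖ = 2 ^ k * ‖σ‖ := by
  rw [norm_mul, norm_pow]; simp

theorem u_one {σ : ℂ} (h : Sec σ) (k : ℕ) : ‖u σ k - 3 / 2 * σ / 4 ^ k‖ ≤ 8 * ‖σ‖ ^ 3 := by
  have h1 := (h.pow k).phi_one
  have h2 : u σ k - 3 / 2 * σ / 4 ^ k =
      3 / 2 * σ / 4 ^ k * ((2 ^ k * σ) / sinh (2 ^ k * σ) - 1) := by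
    rw [u_eq h]; ring
  rw [h2, norm_mul]
  rw [norm_z] at h1
  have h3 : ‖3 / 2 * σ / (4 : ℂ) ^ k‖ = 3 / 2 * ‖σ‖ / 4 ^ k := by
    rw [norm_div, norm_mul, norm_div, norm_pow]; simp
  rw [h3]
  have h4 : (0 : ℝ) < 4 ^ k := by positivity
  calc 3 / 2 * ‖σ‖ / 4 ^ k * ‖(2 ^ k * σ) / sinh (2 ^ k * σ) - 1‖
      ≤ 3 / 2 * ‖σ‖ / 4 ^ k * (5 * (2 ^ k * ‖σ‖) ^ 2) := by gcongr
    _ = 15 / 2 * ‖σ‖ ^ 3 := by
        have : (4 : ℝ) ^ k = 2 ^ k * 2 ^ k := by rw [← mul_pow]; norm_num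
        rw [this]
        field_simp
        ring
    _ ≤ 8 * ‖σ‖ ^ 3 := by
        have : (0 : ℝ) ≤ ‖σ‖ ^ 3 := by positivity
        linarith

theorem u_two {σ : ℂ} (h : Sec σ) {k : ℕ} (hk : 2 ^ k * ‖σ‖ ≤ 1) :
    ‖u σ k - 3 / 2 * σ / 4 ^ k + σ ^ 3 / 4‖ ≤ 6 * 4 ^ k * ‖σ‖ ^ 5 := by
  have h1 := (h.pow k).phi_two (by rw [norm_z]; exact hk)
  have h44 : (4 : ℂ) ^ k = 2 ^ k * 2 ^ k := by rw [← mul_pow]; norm_num
  have h2 : u σ k - 3 / 2 * σ / 4 ^ k + σ ^ 3 / 4 =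
      3 / 2 * σ / 4 ^ k * ((2 ^ k * σ) / sinh (2 ^ k * σ) - 1 + (2 ^ k * σ) ^ 2 / 6) := by
    rw [u_eq h, h44]
    field_simp
    ring
  rw [h2, norm_mul]
  rw [norm_z] at h1
  have h3 : ‖3 / 2 * σ / (4 : ℂ) ^ k‖ = 3 / 2 * ‖σ‖ / 4 ^ k := by
    rw [norm_div, norm_mul, norm_div, norm_pow]; simp
  rw [h3]
  have h4 : (0 : ℝ) < 4 ^ k := by positivity
  calc 3 / 2 * ‖σ‖ / 4 ^ k * ‖(2 ^ k * σ) / sinh (2 ^ k * σ) - 1 + (2 ^ k * σ) ^ 2 / 6‖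
      ≤ 3 / 2 * ‖σ‖ / 4 ^ k * (4 * (2 ^ k * ‖σ‖) ^ 4) := by gcongr
    _ = 6 * 4 ^ k * ‖σ‖ ^ 5 := by
        have : (4 : ℝ) ^ k = 2 ^ k * 2 ^ k := by rw [← mul_pow]; norm_num
        rw [this]
        field_simp
        ring

theorem u_three {σ : ℂ} (h : Sec σ) {k : ℕ} (hk : 1 ≤ 2 ^ k * ‖σ‖) :
    ‖u σ k‖ ≤ 3 * ‖σ‖ ^ 2 / 2 ^ k := by
  have h1 := (h.pow k).sinh_ge'
  rw [norm_z] at h1
  unfold u s
  rw [norm_div, norm_mul, norm_mul, norm_div, norm_pow, norm_pow]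
  have e2 : ‖(2 : ℂ)‖ = 2 := by simp
  have e3 : ‖(3 : ℂ)‖ = 3 := by simp
  rw [e2, e3]
  have h2 : (0 : ℝ) < 2 ^ k := by positivity
  rw [div_le_div_iff₀ (by nlinarith) h2]
  have h3 : (0 : ℝ) ≤ ‖σ‖ ^ 2 := by positivity
  have h4 : 1 / 2 ≤ ‖sinh (2 ^ k * σ)‖ := by linarith
  calc 3 / 2 * ‖σ‖ ^ 2 * 2 ^ k = 3 * ‖σ‖ ^ 2 * (2 ^ k * (1 / 2)) := by ring
    _ ≤ 3 * ‖σ‖ ^ 2 * (2 ^ k * ‖sinh (2 ^ k * σ)‖) := by gcongr

theorem v_le {σ : ℂ} (h : Sec σ) (k : ℕ) :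
    ‖v σ k‖ ≤ 2 ^ k / 2 * ‖e σ k‖ ^ 2 ∧ ‖v σ k‖ ≤ 2 * 4 ^ k * ‖σ‖ * ‖e σ k‖ ^ 2 := by
  have hs := s_ne h k
  have hC : cosh (2 ^ k * σ) ≠ 0 := by
    intro h0
    have := (h.pow k).cosh_ge'
    rw [h0, norm_zero] at this
    linarith
  have hc0 : 0 < ‖cosh (2 ^ k * σ)‖ := norm_pos_iff.2 hC
  have h1 : ‖v σ k‖ = 2 ^ k * ‖sinh (2 ^ k * σ)‖ / (4 * ‖cosh (2 ^ k * σ)‖) * ‖e σ k‖ ^ 2 := by
    have e0 : v σ k = 2 ^ k * sinh (2 ^ k * σ) / (4 * cosh (2 ^ k * σ)) * e σ k ^ 2 := by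
      unfold v
      rw [s_succ]
      unfold C
      have e1 : s σ k ^ 2 = s σ k * (2 ^ k * sinh (2 ^ k * σ)) := by
        rw [sq]; rfl
      rw [e1]
      field_simp
      norm_num
    rw [e0, norm_mul, norm_div, norm_mul, norm_mul, norm_pow, norm_pow]
    simp
  rw [h1]
  have h2 := (h.pow k).tanh_le
  have h3 := (h.pow k).tanh_le'
  rw [norm_z] at h3
  have hk : (0 : ℝ) < 2 ^ k := by positivity
  have h4 : (4 : ℝ) ^ k = 2 ^ k * 2 ^ k := by rw [← mul_pow]; norm_num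
  constructor
  · apply mul_le_mul_of_nonneg_right _ (by positivity)
    rw [div_le_iff₀ (by positivity)]
    nlinarith
  · apply mul_le_mul_of_nonneg_right _ (by positivity)
    rw [div_le_iff₀ (by positivity), h4]
    nlinarith

theorem a_bound {σ : ℂ} (h : Sec σ) (h1 : ‖σ‖ ≤ 1) (n : ℕ) :
    ‖a σ n - σ / 2 / 4 ^ n‖ ≤ (10 + 8 * n) * ‖σ‖ ^ 3 := by
  induction n with
  | zero =>
    have := e_zero h h1
    simpa [a] using this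
  | succ n ih =>
    have h2 := u_one h (n + 1)
    have e1 : a σ (n + 1) - σ / 2 / 4 ^ (n + 1) =
        (a σ n - σ / 2 / 4 ^ n) - (u σ (n + 1) - 3 / 2 * σ / 4 ^ (n + 1)) := by
      rw [a_succ, pow_succ]
      field_simp
      ring
    rw [e1]
    have h3 := norm_sub_le (a σ n - σ / 2 / 4 ^ n) (u σ (n + 1) - 3 / 2 * σ / 4 ^ (n + 1))
    push_cast
    linarith

theorem a_low {σ : ℂ} (h : Sec σ) (n : ℕ) (hn : 2 ^ n * ‖σ‖ ≤ 1) :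
    ‖a σ n - (e σ 0 - σ / 2) - σ / 2 / 4 ^ n - n * σ ^ 3 / 4‖ ≤ 8 * 4 ^ n * ‖σ‖ ^ 5 := by
  induction n with
  | zero =>
    have : a σ 0 - (e σ 0 - σ / 2) - σ / 2 / 4 ^ 0 - ((0 : ℕ) : ℂ) * σ ^ 3 / 4 = 0 := by
      simp [a]
    rw [this, norm_zero]
    positivity
  | succ n ih =>
    have hn' : 2 ^ n * ‖σ‖ ≤ 1 := by
      rw [pow_succ] at hn
      have := norm_nonneg σ
      have h2 : (0 : ℝ) ≤ 2 ^ n * ‖σ‖ := by positivity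
      linarith
    have h1 := ih hn'
    have h2 := u_two h hn
    have e1 : a σ (n + 1) - (e σ 0 - σ / 2) - σ / 2 / 4 ^ (n + 1) - ((n + 1 : ℕ) : ℂ) * σ ^ 3 / 4 =
        (a σ n - (e σ 0 - σ / 2) - σ / 2 / 4 ^ n - n * σ ^ 3 / 4)
        - (u σ (n + 1) - 3 / 2 * σ / 4 ^ (n + 1) + σ ^ 3 / 4) := by
      rw [a_succ, pow_succ]
      push_cast
      field_simp
      ring
    rw [e1]
    have h3 := norm_sub_le (a σ n - (e σ 0 - σ / 2) - σ / 2 / 4 ^ n - n * σ ^ 3 / 4)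
      (u σ (n + 1) - 3 / 2 * σ / 4 ^ (n + 1) + σ ^ 3 / 4)
    have h4 : (0 : ℝ) ≤ 4 ^ n * ‖σ‖ ^ 5 := by positivity
    have h5 : (4 : ℝ) ^ (n + 1) = 4 ^ n * 4 := pow_succ _ _
    refine h3.trans ((add_le_add h1 h2).trans ?_)
    rw [h5]
    nlinarith

theorem a_high {σ : ℂ} (h : Sec σ) (N : ℕ) (hN : 1 ≤ 2 ^ (N + 1) * ‖σ‖) (j : ℕ) :
    ‖a σ (N + j) - a σ N‖ ≤ 3 * ‖σ‖ ^ 2 * (1 / 2 ^ N - 1 / 2 ^ (N + j)) := by
  induction j with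
  | zero => simp
  | succ j ih =>
    have h2 : 1 ≤ 2 ^ (N + j + 1) * ‖σ‖ := by
      refine hN.trans ?_
      apply mul_le_mul_of_nonneg_right _ (norm_nonneg _)
      exact pow_le_pow_right₀ (by norm_num) (by omega)
    have h3 := u_three h h2
    have e1 : a σ (N + (j + 1)) - a σ N = (a σ (N + j) - a σ N) - u σ (N + j + 1) := by
      rw [← add_assoc, a_succ]; ring
    rw [e1]
    have h4 := norm_sub_le (a σ (N + j) - a σ N) (u σ (N + j + 1))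
    refine h4.trans ((add_le_add ih h3).trans (le_of_eq ?_))
    rw [← add_assoc, pow_succ]
    field_simp
    ring

end Pool.Agent.T6.H68.Tip
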