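import Mathlib
import Pool.Agent.T6.H68.Tip.Rec

set_option autoImplicit false

/-! # The correction term `e` near the tip -/

open Complex

namespace Pool.Agent.T6.H68.Tip

theorem geo_four (n : ℕ) : ∑ k ∈ Finset.range n, (1 : ℝ) / 4 ^ k ≤ 4 / 3 := by
  have : ∑ k ∈ Finset.range n, (1 : ℝ) / 4 ^ k = 4 / 3 * (1 - 1 / 4 ^ n) := by
    induction n with
    | zero => simp
    | succ n ih => rw [Finset.sum_range_succ, ih, pow_succ]; field_simp; ring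
  rw [this]
  have h : (0 : ℝ) < 1 / 4 ^ n := by positivity
  linarith

theorem geo_two (n : ℕ) : ∑ k ∈ Finset.range n, (2 : ℝ) ^ k ≤ 2 ^ n := by
  have : ∑ k ∈ Finset.range n, (2 : ℝ) ^ k = 2 ^ n - 1 := by
    induction n with
    | zero => simp
    | succ n ih => rw [Finset.sum_range_succ, ih, pow_succ]; ring
  rw [this]
  linarith

theorem v_bound {σ : ℂ} (h : Sec σ) {ρ : ℝ} (hρ0 : 0 < ρ) (k : ℕ)
    (hk : ‖e σ k‖ ≤ 3 * ‖σ‖ / 4 ^ k + ρ ^ 5) :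
    ‖v σ k‖ ≤ 36 * ‖σ‖ ^ 3 * (1 / 4 ^ k) + 2 ^ k * ρ ^ 10 := by
  obtain ⟨h1, h2⟩ := v_le h k
  set x : ℝ := 3 * ‖σ‖ / 4 ^ k with hx
  set y : ℝ := ρ ^ 5 with hy
  have hx0 : 0 ≤ x := by positivity
  have hy0 : 0 < y := by positivity
  have hE : ‖e σ k‖ ^ 2 ≤ 2 * x ^ 2 + 2 * y ^ 2 := by
    have h3 := norm_nonneg (e σ k)
    have h4 : ‖e σ k‖ ^ 2 ≤ (x + y) ^ 2 := pow_le_pow_left₀ h3 hk 2
    nlinarith [sq_nonneg (x - y)]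
  have e1 : 36 * ‖σ‖ ^ 3 * (1 / 4 ^ k) = (2 * 4 ^ k * ‖σ‖) * (2 * x ^ 2) := by
    rw [hx]; field_simp; ring
  have e2 : 2 ^ k * ρ ^ 10 = (2 ^ k / 2) * (2 * y ^ 2) := by
    rw [hy]; ring
  rw [e1, e2]
  have hc1 : (0 : ℝ) ≤ 2 ^ k / 2 := by positivity
  have hc2 : (0 : ℝ) ≤ 2 * 4 ^ k * ‖σ‖ := by positivity
  have hx2 : 0 ≤ 2 * x ^ 2 := by positivity
  have hy2 : 0 ≤ 2 * y ^ 2 := by positivity
  rcases le_total ((2 : ℝ) ^ k / 2) (2 * 4 ^ k * ‖σ‖) with hc | hc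
  · have h5 := mul_le_mul_of_nonneg_left hE hc1
    have h6 := mul_le_mul_of_nonneg_right hc hx2
    nlinarith
  · have h5 := mul_le_mul_of_nonneg_left hE hc2
    have h6 := mul_le_mul_of_nonneg_right hc hy2
    nlinarith

theorem e_bound {σ : ℂ} (h : Sec σ) {ρ : ℝ} (hρ0 : 0 < ρ) (hρ1 : ρ ≤ 1) (hρ : ρ ^ 2 = ‖σ‖)
    {m : ℕ} (hm : 2 ^ m * ρ ^ 4 ≤ 1) (hmρ : (59 + 8 * m) * ρ ≤ 1) :
    ∀ n ≤ m, ‖e σ n‖ ≤ 3 * ‖σ‖ / 4 ^ n + ρ ^ 5 ∧ ‖e σ n - a σ n‖ ≤ 49 * ‖σ‖ ^ 3 := by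
  have hσ1 : ‖σ‖ ≤ 1 := by rw [← hρ]; exact pow_le_one₀ hρ0.le hρ1
  intro n
  induction n using Nat.strong_induction_on with
  | _ n ih =>
    intro hn
    have h1 : ‖e σ n - a σ n‖ ≤ 49 * ‖σ‖ ^ 3 := by
      rw [e_eq h n, add_sub_cancel_left]
      refine (norm_sum_le _ _).trans ?_
      have h2 : ∑ k ∈ Finset.range n, ‖v σ k‖ ≤
          ∑ k ∈ Finset.range n, (36 * ‖σ‖ ^ 3 * (1 / 4 ^ k) + 2 ^ k * ρ ^ 10) := by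
        apply Finset.sum_le_sum
        intro k hk
        rw [Finset.mem_range] at hk
        exact v_bound h hρ0 k (ih k hk (by omega)).1
      refine h2.trans ?_
      rw [Finset.sum_add_distrib, ← Finset.mul_sum, ← Finset.sum_mul]
      have h3 := geo_four n
      have h4 := geo_two n
      have h5 : (2 : ℝ) ^ n ≤ 2 ^ m := pow_le_pow_right₀ (by norm_num) hn
      have h6 : (∑ k ∈ Finset.range n, (2 : ℝ) ^ k) * ρ ^ 10 ≤ ‖σ‖ ^ 3 := by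
        calc (∑ k ∈ Finset.range n, (2 : ℝ) ^ k) * ρ ^ 10 ≤ 2 ^ m * ρ ^ 10 := by
              apply mul_le_mul_of_nonneg_right (h4.trans h5) (by positivity)
          _ = (2 ^ m * ρ ^ 4) * ρ ^ 6 := by ring
          _ ≤ 1 * ρ ^ 6 := mul_le_mul_of_nonneg_right hm (by positivity)
          _ = ‖σ‖ ^ 3 := by rw [← hρ]; ring
      have h7 : 36 * ‖σ‖ ^ 3 * ∑ k ∈ Finset.range n, (1 : ℝ) / 4 ^ k ≤ 36 * ‖σ‖ ^ 3 * (4 / 3) :=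
        mul_le_mul_of_nonneg_left h3 (by positivity)
      linarith
    refine ⟨?_, h1⟩
    have h2 := a_bound h hσ1 n
    have e1 : e σ n = (e σ n - a σ n) + (a σ n - σ / 2 / 4 ^ n) + σ / 2 / 4 ^ n := by ring
    have h3 : ‖σ / 2 / (4 : ℂ) ^ n‖ = ‖σ‖ / 2 / 4 ^ n := by
      rw [norm_div, norm_div, norm_pow]; simp
    have h4 : ‖e σ n‖ ≤ 49 * ‖σ‖ ^ 3 + (10 + 8 * n) * ‖σ‖ ^ 3 + ‖σ‖ / 2 / 4 ^ n := by
      rw [e1]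
      refine (norm_add₃_le).trans ?_
      rw [h3]
      gcongr
    have h5 : (n : ℝ) ≤ m := by exact_mod_cast hn
    have h6 : 49 * ‖σ‖ ^ 3 + (10 + 8 * n) * ‖σ‖ ^ 3 ≤ ρ ^ 5 := by
      rw [← hρ]
      calc 49 * (ρ ^ 2) ^ 3 + (10 + 8 * n) * (ρ ^ 2) ^ 3 = ((59 + 8 * n) * ρ) * ρ ^ 5 := by ring
        _ ≤ ((59 + 8 * m) * ρ) * ρ ^ 5 := by gcongr
        _ ≤ 1 * ρ ^ 5 := mul_le_mul_of_nonneg_right hmρ (by positivity)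
        _ = ρ ^ 5 := one_mul _
    have h7 : ‖σ‖ / 2 / 4 ^ n ≤ 3 * ‖σ‖ / 4 ^ n := by
      apply div_le_div_of_nonneg_right _ (by positivity)
      linarith [norm_nonneg σ]
    linarith

theorem e_final {σ : ℂ} (h : Sec σ) {ρ : ℝ} (hρ0 : 0 < ρ) (hρ1 : ρ ≤ 1) (hρ : ρ ^ 2 = ‖σ‖)
    {m : ℕ} (hm : 2 ^ m * ρ ^ 4 ≤ 1) (hmρ : (59 + 8 * m) * ρ ≤ 1) {N : ℕ} (hNm : N ≤ m)
    (hN1 : 2 ^ N * ‖σ‖ ≤ 1) (hN2 : 1 ≤ 2 ^ (N + 1) * ‖σ‖) :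
    ‖e σ m - N * σ ^ 3 / 4‖ ≤ 75 * ‖σ‖ ^ 3 := by
  have hσ1 : ‖σ‖ ≤ 1 := by rw [← hρ]; exact pow_le_one₀ hρ0.le hρ1
  have hσ0 : 0 < ‖σ‖ := norm_pos_iff.2 h.ne
  have h1 := (e_bound h hρ0 hρ1 hρ hm hmρ m le_rfl).2
  obtain ⟨j, rfl⟩ := Nat.exists_eq_add_of_le hNm
  have h2 := a_high h N hN2 j
  have h3 := a_low h N hN1
  have h4 := e_zero h hσ1
  have h2N : (0 : ℝ) < 2 ^ N := by positivity
  have h5 : (1 : ℝ) / 2 ^ N ≤ 2 * ‖σ‖ := by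
    rw [div_le_iff₀ h2N]
    rw [pow_succ] at hN2
    linarith
  have h6 : (0 : ℝ) < 1 / 2 ^ (N + j) := by positivity
  have h2' : ‖a σ (N + j) - a σ N‖ ≤ 6 * ‖σ‖ ^ 3 := by
    refine h2.trans ?_
    calc 3 * ‖σ‖ ^ 2 * (1 / 2 ^ N - 1 / 2 ^ (N + j)) ≤ 3 * ‖σ‖ ^ 2 * (2 * ‖σ‖) := by
          apply mul_le_mul_of_nonneg_left _ (by positivity)
          linarith
      _ = 6 * ‖σ‖ ^ 3 := by ring
  have h44 : (4 : ℝ) ^ N = 2 ^ N * 2 ^ N := by rw [← mul_pow]; norm_num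
  have h3' : 8 * 4 ^ N * ‖σ‖ ^ 5 ≤ 8 * ‖σ‖ ^ 3 := by
    have : (2 ^ N * ‖σ‖) ^ 2 ≤ 1 := pow_le_one₀ (by positivity) hN1
    calc 8 * 4 ^ N * ‖σ‖ ^ 5 = 8 * ‖σ‖ ^ 3 * (2 ^ N * ‖σ‖) ^ 2 := by rw [h44]; ring
      _ ≤ 8 * ‖σ‖ ^ 3 * 1 := by gcongr
      _ = 8 * ‖σ‖ ^ 3 := mul_one _
  have h7 : ‖σ / 2 / (4 : ℂ) ^ N‖ ≤ 2 * ‖σ‖ ^ 3 := by
    have e3 : ‖σ / 2 / (4 : ℂ) ^ N‖ = ‖σ‖ / 2 * (1 / 2 ^ N) ^ 2 := by
      rw [norm_div, norm_div, norm_pow]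
      simp only [Complex.norm_ofNat]
      rw [h44]
      field_simp
    rw [e3]
    have : (1 / (2 : ℝ) ^ N) ^ 2 ≤ (2 * ‖σ‖) ^ 2 := pow_le_pow_left₀ (by positivity) h5 2
    nlinarith
  have e1 : e σ (N + j) - N * σ ^ 3 / 4 = (e σ (N + j) - a σ (N + j)) + (a σ (N + j) - a σ N)
      + (a σ N - (e σ 0 - σ / 2) - σ / 2 / 4 ^ N - N * σ ^ 3 / 4) + (e σ 0 - σ / 2)
      + σ / 2 / 4 ^ N := by ring
  rw [e1]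
  have t1 := norm_add_le ((e σ (N + j) - a σ (N + j)) + (a σ (N + j) - a σ N)
      + (a σ N - (e σ 0 - σ / 2) - σ / 2 / 4 ^ N - N * σ ^ 3 / 4) + (e σ 0 - σ / 2))
      (σ / 2 / 4 ^ N)
  have t2 := norm_add_le ((e σ (N + j) - a σ (N + j)) + (a σ (N + j) - a σ N)
      + (a σ N - (e σ 0 - σ / 2) - σ / 2 / 4 ^ N - N * σ ^ 3 / 4)) (e σ 0 - σ / 2)
  have t3 := norm_add_le ((e σ (N + j) - a σ (N + j)) + (a σ (N + j) - a σ N))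
      (a σ N - (e σ 0 - σ / 2) - σ / 2 / 4 ^ N - N * σ ^ 3 / 4)
  have t4 := norm_add_le (e σ (N + j) - a σ (N + j)) (a σ (N + j) - a σ N)
  linarith

end Pool.Agent.T6.H68.Tip
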