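import Mathlib
import Pool.Agent.T6.H68.Tip.Ind

set_option autoImplicit false

/-! # The escape rate near the tip -/

open Complex

namespace Pool.Agent.T6.H68.Tip

theorem log_norm_small {w : ℂ} (hw : ‖w‖ ≤ 1 / 2) : |Real.log ‖1 + w‖| ≤ 2 * ‖w‖ := by
  have h1 := Complex.norm_log_one_add_half_le_self hw
  have h2 : Real.log ‖1 + w‖ = (Complex.log (1 + w)).re := (Complex.log_re _).symm
  rw [h2]
  have h3 := Complex.abs_re_le_norm (Complex.log (1 + w))
  linarith [norm_nonneg w]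

theorem log_norm_two {w : ℂ} (hw : ‖w‖ ≤ 1 / 2) : |Real.log ‖1 + w‖ - w.re| ≤ ‖w‖ ^ 2 := by
  have h1 := Complex.norm_log_one_add_sub_self_le (z := w) (by linarith)
  have h2 : Real.log ‖1 + w‖ - w.re = (Complex.log (1 + w) - w).re := by
    rw [Complex.sub_re, Complex.log_re]
  rw [h2]
  have h3 := Complex.abs_re_le_norm (Complex.log (1 + w) - w)
  refine h3.trans (h1.trans ?_)
  have h4 : (1 - ‖w‖)⁻¹ ≤ 2 := by
    rw [inv_le_comm₀ (by linarith) (by norm_num)]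
    linarith
  have h5 : (0 : ℝ) ≤ ‖w‖ ^ 2 := by positivity
  nlinarith

/-- propagation of the escape rate -/
theorem escape {c : ℂ} (hc : ‖c‖ ≤ 3) {p : ℕ → ℂ} (hp : ∀ n, p (n + 1) = p n ^ 2 + c) {m : ℕ}
    (hm : 4 ≤ ‖p m‖) (j : ℕ) : ‖p m‖ ≤ ‖p (m + j)‖ ∧
      |Real.log ‖p (m + j)‖ / 2 ^ (m + j) - Real.log ‖p m‖ / 2 ^ m| ≤
        6 / ‖p m‖ ^ 2 * (1 / 2 ^ m - 1 / 2 ^ (m + j)) := by
  induction j with
  | zero => simp
  | succ j ih =>
    obtain ⟨h1, h2⟩ := ih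
    set x : ℂ := p (m + j) with hx
    have hx4 : 4 ≤ ‖x‖ := hm.trans h1
    have hx0 : x ≠ 0 := by
      intro h0
      rw [h0, norm_zero] at hx4
      linarith
    have e1 : p (m + (j + 1)) = x ^ 2 * (1 + c / x ^ 2) := by
      rw [← add_assoc, hp, ← hx]
      field_simp
    have h3 : ‖c / x ^ 2‖ ≤ 3 / ‖x‖ ^ 2 := by
      rw [norm_div, norm_pow]
      gcongr
    have h4 : 3 / ‖x‖ ^ 2 ≤ 3 / 16 := by
      apply div_le_div_of_nonneg_left (by norm_num) (by norm_num)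
      nlinarith
    have h5 : ‖c / x ^ 2‖ ≤ 1 / 2 := by linarith
    have h6 := log_norm_small h5
    have hne : (1 : ℂ) + c / x ^ 2 ≠ 0 := by
      intro h0
      have : c / x ^ 2 = -1 := by linear_combination h0
      rw [this, norm_neg, norm_one] at h5
      linarith
    have h7 : Real.log ‖p (m + (j + 1))‖ = 2 * Real.log ‖x‖ + Real.log ‖1 + c / x ^ 2‖ := by
      rw [e1, norm_mul, norm_pow, Real.log_mul (by positivity) (by positivity), Real.log_pow]
      norm_num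
    have h8 : ‖x‖ ≤ ‖p (m + (j + 1))‖ := by
      have h9 : ‖x ^ 2‖ - ‖c‖ ≤ ‖p (m + (j + 1))‖ := by
        rw [← add_assoc, hp, ← hx]
        have := norm_sub_le (x ^ 2 + c) c
        rw [add_sub_cancel_right] at this
        linarith
      rw [norm_pow] at h9
      nlinarith
    refine ⟨h1.trans h8, ?_⟩
    have h10 : Real.log ‖p (m + (j + 1))‖ / 2 ^ (m + (j + 1)) - Real.log ‖p m‖ / 2 ^ m =
        (Real.log ‖x‖ / 2 ^ (m + j) - Real.log ‖p m‖ / 2 ^ m) +
          Real.log ‖1 + c / x ^ 2‖ / 2 ^ (m + (j + 1)) := by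
      rw [h7, ← add_assoc, pow_succ]
      field_simp
      ring
    rw [h10]
    have h11 : |Real.log ‖1 + c / x ^ 2‖ / 2 ^ (m + (j + 1))| ≤
        6 / ‖p m‖ ^ 2 / 2 ^ (m + (j + 1)) := by
      rw [abs_div, abs_of_pos (show (0 : ℝ) < 2 ^ (m + (j + 1)) by positivity)]
      apply div_le_div_of_nonneg_right _ (by positivity)
      refine h6.trans ?_
      have h12 : 3 / ‖x‖ ^ 2 ≤ 3 / ‖p m‖ ^ 2 := by
        have : 0 < ‖p m‖ := by linarith
        apply div_le_div_of_nonneg_left (by norm_num) (by positivity)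
        exact pow_le_pow_left₀ (norm_nonneg _) h1 2
      have h13 : 6 / ‖p m‖ ^ 2 = 2 * (3 / ‖p m‖ ^ 2) := by ring
      rw [h13]
      linarith
    refine (abs_add_le _ _).trans ((add_le_add h2 h11).trans (le_of_eq ?_))
    rw [← add_assoc, pow_succ]
    field_simp
    ring

theorem m_small {μ : ℝ} (hμ0 : 0 < μ) (hμ : μ ≤ 1 / 150) {m : ℕ} (hm : 2 ^ m * (μ ^ 2) ^ 4 ≤ 1) :
    (59 + 8 * (m : ℝ)) * μ ^ 2 ≤ 1 := by
  have h1 : (m : ℝ) * Real.log 2 + 8 * Real.log μ ≤ 0 := by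
    have h2 := Real.log_nonpos (by positivity) hm
    rw [Real.log_mul (by positivity) (by positivity), Real.log_pow, Real.log_pow, Real.log_pow] at h2
    push_cast at h2
    linarith
  have h3 : -Real.log μ ≤ 1 / μ := by
    have := Real.add_one_le_exp (-Real.log μ)
    rw [Real.exp_neg, Real.exp_log hμ0] at this
    rw [one_div]
    linarith
  have h4 : (1 : ℝ) / 2 ≤ Real.log 2 := by linarith [Real.log_two_gt_d9]
  have h5 : (m : ℝ) * (1 / 2) ≤ 8 * (1 / μ) := by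
    have : (m : ℝ) * (1 / 2) ≤ m * Real.log 2 := mul_le_mul_of_nonneg_left h4 (by positivity)
    linarith
  have h6 : (m : ℝ) * μ ≤ 16 := by
    have h7 := mul_le_mul_of_nonneg_right h5 hμ0.le
    have h8 : 8 * (1 / μ) * μ = 8 := by field_simp
    rw [h8] at h7
    linarith
  calc (59 + 8 * (m : ℝ)) * μ ^ 2 = 59 * μ * μ + 8 * (m * μ) * μ := by ring
    _ ≤ 59 * μ * μ + 8 * 16 * μ := by gcongr
    _ ≤ 1 := by nlinarith

theorem green_tip {σ : ℂ} (h : Sec σ) (hσ : ‖σ‖ ≤ (1 / 150) ^ 4) :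
    ∃ m : ℕ, ∀ n ≥ m, 4 ≤ ‖q σ n‖ ∧
      |Real.log ‖q σ n‖ / 2 ^ n - (σ - σ ^ 3 * Complex.log σ / (8 * Real.log 2)).re| ≤
        250 * ‖σ‖ ^ 3 := by
  set r : ℝ := ‖σ‖ with hr
  have hr0 : 0 < r := norm_pos_iff.2 h.ne
  obtain ⟨μ, hμ0, hμ⟩ : ∃ μ : ℝ, 0 < μ ∧ μ ^ 4 = r :=
    ⟨r ^ ((4 : ℝ)⁻¹), by positivity, by
      rw [← Real.rpow_natCast, ← Real.rpow_mul hr0.le]; norm_num⟩
  have hμ1 : μ ≤ 1 / 150 := by
    rw [← hμ] at hσ
    exact le_of_pow_le_pow_left₀ (by norm_num) (by norm_num) hσ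
  set ρ : ℝ := μ ^ 2 with hρ
  have hρ0 : 0 < ρ := by positivity
  have hρr : ρ ^ 2 = r := by rw [hρ, ← hμ]; ring
  have hr1 : r ≤ 1 / 1000 := hσ.trans (by norm_num)
  obtain ⟨m, hm1, hm2⟩ := exists_nat_pow_near (x := 1 / r ^ 2) (y := 2)
    (by rw [le_div_iff₀ (by positivity)]; nlinarith) (by norm_num)
  obtain ⟨N, hN1, hN2⟩ := exists_nat_pow_near (x := 1 / r) (y := 2)
    (by rw [le_div_iff₀ (by positivity)]; linarith) (by norm_num)
  rw [le_div_iff₀ (by positivity)] at hm1 hN1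
  rw [div_lt_iff₀ (by positivity)] at hm2 hN2
  have hNm : N ≤ m := by
    by_contra hcon
    push Not at hcon
    have h1 : (2 : ℝ) ^ (m + 1) ≤ 2 ^ N := pow_le_pow_right₀ (by norm_num) hcon
    have h2 : (2 : ℝ) ^ (m + 1) * r ^ 2 ≤ 2 ^ N * r * r := by nlinarith [sq_nonneg r]
    nlinarith
  have hm1' : 2 ^ m * ρ ^ 4 ≤ 1 := by
    have : ρ ^ 4 = r ^ 2 := by rw [← hρr]; ring
    rw [this]; exact hm1
  have hsm : (59 + 8 * (m : ℝ)) * ρ ≤ 1 := m_small hμ0 hμ1 hm1'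
  have hρ1 : ρ ≤ 1 / 59 := by
    have : 0 ≤ (m : ℝ) * ρ := by positivity
    nlinarith
  have hmρ : (m : ℝ) * ρ ≤ 1 / 8 := by nlinarith
  have hfin := e_final h hρ0 (by linarith) hρr hm1' hsm hNm hN1 hN2.le
  rw [← hr] at hfin
  -- the size of the correction
  have hNmR : (N : ℝ) ≤ m := by exact_mod_cast hNm
  have hA : ((N : ℝ) / 4 + 75) * ρ ≤ 7 / 5 := by
    have : (N : ℝ) * ρ ≤ 1 / 8 := (mul_le_mul_of_nonneg_right hNmR hρ0.le).trans hmρ
    nlinarith
  have he : ‖e σ m‖ ≤ ((N : ℝ) / 4 + 75) * r ^ 3 := by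
    have e1 : e σ m = (e σ m - N * σ ^ 3 / 4) + N * σ ^ 3 / 4 := by ring
    rw [e1]
    refine (norm_add_le _ _).trans ?_
    have e2 : ‖(N : ℂ) * σ ^ 3 / 4‖ = N * r ^ 3 / 4 := by
      rw [norm_div, norm_mul, norm_pow, Complex.norm_natCast]; simp [hr]
    rw [e2]
    linarith
  have hr3 : r ^ 3 = ρ * ρ * r ^ 2 := by rw [← hρr]; ring
  have he2 : ‖e σ m‖ ≤ r ^ 2 := by
    refine he.trans ?_
    rw [hr3]
    calc ((N : ℝ) / 4 + 75) * (ρ * ρ * r ^ 2) = (((N : ℝ) / 4 + 75) * ρ) * ρ * r ^ 2 := by ring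
      _ ≤ (7 / 5) * (1 / 59) * r ^ 2 := by gcongr
      _ ≤ r ^ 2 := by nlinarith [sq_nonneg r]
  set z : ℂ := 2 ^ m * σ with hz
  have hzS : Sec z := h.pow m
  set x : ℝ := z.re with hx
  have h2m : (0 : ℝ) < 2 ^ m := by positivity
  have hinv : (1 : ℝ) / 2 ^ m ≤ 2 * r ^ 2 := by
    rw [div_le_iff₀ h2m]
    rw [pow_succ] at hm2
    linarith
  have hxr : 1 / (4 * r) ≤ x := by
    have h1 := hzS.norm_le
    rw [hz, norm_z, ← hr, ← hz, ← hx] at h1
    rw [pow_succ] at hm2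
    rw [div_le_iff₀ (by positivity)]
    nlinarith
  have hx0 : 0 < x := hzS.1
  have hxinv : 1 / x ≤ 4 * r := by
    rw [div_le_iff₀ hx0]
    rw [div_le_iff₀ (by positivity)] at hxr
    linarith
  have hexpx : Real.exp (-x) ≤ 4 * r := by
    refine le_trans ?_ hxinv
    rw [Real.exp_neg, one_div]
    apply inv_anti₀ hx0
    linarith [Real.add_one_le_exp x]
  have hcne : cosh z ≠ 0 := by
    intro h0
    have := hzS.cosh_ge'
    rw [h0, norm_zero] at this
    linarith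
  have hCm : C σ m = 2 * cosh z := rfl
  have hsm' : s σ m = 2 ^ m * sinh z := rfl
  have hCne : C σ m ≠ 0 := by rw [hCm]; exact mul_ne_zero two_ne_zero hcne
  set w : ℂ := s σ m * e σ m / C σ m with hw
  have hqm : q σ m = C σ m * (1 + w) := by
    rw [q_eq h m, hw]
    field_simp
  have hwle : ‖w‖ ≤ 2 ^ m * ‖e σ m‖ := by
    rw [hw, norm_div, norm_mul, div_le_iff₀ (norm_pos_iff.2 hCne), hCm, hsm', norm_mul, norm_mul,
      norm_pow]
    simp only [Complex.norm_ofNat]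
    have := hzS.tanh_le
    have h1 : (0 : ℝ) ≤ 2 ^ m * ‖e σ m‖ := by positivity
    nlinarith [mul_le_mul_of_nonneg_left this h1]
  have hwle2 : ‖w‖ ≤ (7 / 5) * ρ := by
    refine hwle.trans ?_
    calc 2 ^ m * ‖e σ m‖ ≤ 2 ^ m * (((N : ℝ) / 4 + 75) * r ^ 3) := by gcongr
      _ = (2 ^ m * r ^ 2) * ((((N : ℝ) / 4 + 75) * ρ) * ρ) := by
          have : r ^ 3 = r ^ 2 * (ρ * ρ) := by rw [← hρr]; ring
          rw [this]; ring
      _ ≤ 1 * ((7 / 5) * ρ) := by gcongr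
      _ = (7 / 5) * ρ := one_mul _
  have hwhalf : ‖w‖ ≤ 1 / 2 := by linarith
  have hwsq : ‖w‖ ^ 2 / 2 ^ m ≤ 2 * r ^ 3 := by
    rw [div_le_iff₀ h2m]
    calc ‖w‖ ^ 2 ≤ (2 ^ m * ‖e σ m‖) ^ 2 := pow_le_pow_left₀ (norm_nonneg _) hwle 2
      _ ≤ (2 ^ m * (((N : ℝ) / 4 + 75) * r ^ 3)) ^ 2 := by gcongr
      _ = (2 ^ m * r ^ 2) * ((((N : ℝ) / 4 + 75) * ρ) ^ 2 * r ^ 3) * 2 ^ m := by
          have : r ^ 6 = r ^ 2 * (ρ ^ 2 * r ^ 3) := by rw [hρr]; ring
          calc (2 ^ m * (((N : ℝ) / 4 + 75) * r ^ 3)) ^ 2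
              = 2 ^ m * 2 ^ m * ((N : ℝ) / 4 + 75) ^ 2 * r ^ 6 := by ring
            _ = _ := by rw [this]; ring
      _ ≤ 1 * ((7 / 5) ^ 2 * r ^ 3) * 2 ^ m := by gcongr
      _ ≤ 2 * r ^ 3 * 2 ^ m := by
          have : (0 : ℝ) ≤ r ^ 3 * 2 ^ m := by positivity
          nlinarith
  have h1w : (1 : ℂ) + w ≠ 0 := by
    intro h0
    have : w = -1 := by linear_combination h0
    rw [this, norm_neg, norm_one] at hwhalf
    linarith
  have hlog : Real.log ‖q σ m‖ = Real.log ‖C σ m‖ + Real.log ‖1 + w‖ := by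
    rw [hqm, norm_mul, Real.log_mul (norm_ne_zero_iff.2 hCne) (norm_ne_zero_iff.2 h1w)]
  -- the Chebyshev part
  have hexp2 : ‖Complex.exp (-(2 * z))‖ ≤ 4 * r := by
    rw [Complex.norm_exp]
    have : (-(2 * z)).re = -(2 * x) := by simp [hx]
    rw [this]
    refine le_trans (Real.exp_le_exp.2 ?_) hexpx
    linarith
  have hCexp : C σ m = Complex.exp z * (1 + Complex.exp (-(2 * z))) := by
    rw [hCm, Complex.cosh, mul_add, ← Complex.exp_add, mul_one]
    have : z + -(2 * z) = -z := by ring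
    rw [this]; ring
  have hC1 : |Real.log ‖C σ m‖ / 2 ^ m - σ.re| ≤ 16 * r ^ 3 := by
    have h5 : ‖Complex.exp (-(2 * z))‖ ≤ 1 / 2 := by linarith
    have h6 := log_norm_small h5
    have h1e : (1 : ℂ) + Complex.exp (-(2 * z)) ≠ 0 := by
      intro h0
      have : Complex.exp (-(2 * z)) = -1 := by linear_combination h0
      rw [this, norm_neg, norm_one] at h5
      linarith
    have h7 : Real.log ‖C σ m‖ = x + Real.log ‖1 + Complex.exp (-(2 * z))‖ := by
      rw [hCexp, norm_mul, Real.log_mul (norm_ne_zero_iff.2 (Complex.exp_ne_zero _))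
        (norm_ne_zero_iff.2 h1e), Complex.norm_exp, Real.log_exp]
    have h8 : x = 2 ^ m * σ.re := by
      rw [hx, hz]
      have : (2 : ℂ) ^ m = ((2 ^ m : ℝ) : ℂ) := by push_cast; rfl
      rw [this, re_ofReal_mul]
    have h9 : Real.log ‖C σ m‖ / 2 ^ m - σ.re =
        Real.log ‖1 + Complex.exp (-(2 * z))‖ * (1 / 2 ^ m) := by
      rw [h7, h8]; field_simp; ring
    rw [h9, abs_mul, abs_of_pos (show (0 : ℝ) < 1 / 2 ^ m by positivity)]
    calc |Real.log ‖1 + Complex.exp (-(2 * z))‖| * (1 / 2 ^ m)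
        ≤ (2 * ‖Complex.exp (-(2 * z))‖) * (2 * r ^ 2) := by gcongr
      _ ≤ (2 * (4 * r)) * (2 * r ^ 2) := by gcongr
      _ = 16 * r ^ 3 := by ring
  -- the correction part
  have hW : |Real.log ‖1 + w‖ / 2 ^ m - (e σ m / 2).re| ≤ 2 * r ^ 3 + 4 * r ^ 3 := by
    have h5 := log_norm_two hwhalf
    have h6 : |Real.log ‖1 + w‖ / 2 ^ m - w.re / 2 ^ m| ≤ 2 * r ^ 3 := by
      rw [← sub_div, abs_div, abs_of_pos h2m]
      exact (div_le_div_of_nonneg_right h5 h2m.le).trans hwsq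
    have h7 : |w.re / 2 ^ m - (e σ m / 2).re| ≤ 4 * r ^ 3 := by
      have h8 : w.re / 2 ^ m = (w / 2 ^ m).re := by
        have : (2 : ℂ) ^ m = ((2 ^ m : ℝ) : ℂ) := by push_cast; rfl
        rw [this, Complex.div_ofReal_re]
      rw [h8, ← Complex.sub_re]
      refine (Complex.abs_re_le_norm _).trans ?_
      have h9 : w / 2 ^ m - e σ m / 2 = -(Complex.exp (-z) / (2 * cosh z)) * e σ m := by
        rw [hw, hCm, hsm']
        have h10 : Complex.exp (-z) = cosh z - sinh z := (Complex.cosh_sub_sinh z).symm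
        rw [h10]
        field_simp
        ring
      rw [h9, norm_mul, norm_neg, norm_div, norm_mul, Complex.norm_exp]
      have h11 : (-z).re = -x := by simp [hx]
      rw [h11]
      simp only [Complex.norm_ofNat]
      have h12 := hzS.cosh_ge'
      have h13 : Real.exp (-x) / (2 * ‖cosh z‖) ≤ 4 * r := by
        rw [div_le_iff₀ (by linarith)]
        nlinarith
      calc Real.exp (-x) / (2 * ‖cosh z‖) * ‖e σ m‖ ≤ (4 * r) * r ^ 2 := by gcongr
        _ = 4 * r ^ 3 := by ring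
    have h8 : Real.log ‖1 + w‖ / 2 ^ m - (e σ m / 2).re =
        (Real.log ‖1 + w‖ / 2 ^ m - w.re / 2 ^ m) + (w.re / 2 ^ m - (e σ m / 2).re) := by ring
    rw [h8]
    exact (abs_add_le _ _).trans (add_le_add h6 h7)
  -- from `N` to the logarithm
  have hNlog : |(e σ m / 2).re - (-(σ ^ 3 * Complex.log σ / (8 * Real.log 2))).re| ≤ 39 * r ^ 3 := by
    rw [← Complex.sub_re]
    refine (Complex.abs_re_le_norm _).trans ?_
    have hl2 : (0 : ℝ) < Real.log 2 := Real.log_pos (by norm_num)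
    have hl2' : (Real.log 2 : ℂ) ≠ 0 := by exact_mod_cast hl2.ne'
    have e1 : e σ m / 2 - -(σ ^ 3 * Complex.log σ / (8 * Real.log 2)) =
        (e σ m - N * σ ^ 3 / 4) / 2 + σ ^ 3 / 8 * ((N : ℂ) + Complex.log σ / Real.log 2) := by
      field_simp
      ring
    rw [e1]
    have h5 : ‖(N : ℂ) + Complex.log σ / Real.log 2‖ ≤ 8 := by
      have e2 : (N : ℂ) + Complex.log σ / Real.log 2 =
          ((N + Real.log r / Real.log 2 : ℝ) : ℂ) + ((σ.arg / Real.log 2 : ℝ) : ℂ) * I := by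
        have : Complex.log σ = (Real.log r : ℂ) + σ.arg * I := by
          rw [Complex.log]
        rw [this]
        push_cast
        ring
      rw [e2]
      refine (norm_add_le _ _).trans ?_
      rw [norm_mul, Complex.norm_I, mul_one, Complex.norm_real, Complex.norm_real,
        Real.norm_eq_abs, Real.norm_eq_abs]
      have h6 : |(N : ℝ) + Real.log r / Real.log 2| ≤ 1 := by
        have h7 : (N : ℝ) * Real.log 2 + Real.log r ≤ 0 := by
          have := Real.log_nonpos (by positivity) hN1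
          rwa [Real.log_mul (by positivity) hr0.ne', Real.log_pow] at this
        have h8 : 0 ≤ ((N : ℝ) + 1) * Real.log 2 + Real.log r := by
          have := Real.log_nonneg hN2.le
          rw [Real.log_mul (by positivity) hr0.ne', Real.log_pow] at this
          push_cast at this
          exact this
        have e3 : (N : ℝ) + Real.log r / Real.log 2 = (N * Real.log 2 + Real.log r) / Real.log 2 := by
          field_simp
        rw [e3, abs_le, le_div_iff₀ hl2, div_le_iff₀ hl2]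
        constructor <;> linarith
      have h9 : |σ.arg / Real.log 2| ≤ 7 := by
        rw [abs_div, abs_of_pos hl2, div_le_iff₀ hl2]
        have := Complex.abs_arg_le_pi σ
        have := Real.pi_lt_d2
        have := Real.log_two_gt_d9
        linarith
      linarith
    have h6 : ‖(e σ m - N * σ ^ 3 / 4) / 2‖ ≤ 75 * r ^ 3 / 2 := by
      rw [norm_div]
      simp only [Complex.norm_ofNat]
      linarith
    have h7 : ‖σ ^ 3 / 8 * ((N : ℂ) + Complex.log σ / Real.log 2)‖ ≤ r ^ 3 / 8 * 8 := by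
      rw [norm_mul, norm_div, norm_pow]
      simp only [Complex.norm_ofNat]
      rw [← hr]
      gcongr
    refine (norm_add_le _ _).trans ?_
    have : (0 : ℝ) ≤ r ^ 3 := by positivity
    linarith
  -- the value at time `m`
  have hmain : |Real.log ‖q σ m‖ / 2 ^ m - (σ - σ ^ 3 * Complex.log σ / (8 * Real.log 2)).re| ≤
      61 * r ^ 3 := by
    have e1 : Real.log ‖q σ m‖ / 2 ^ m - (σ - σ ^ 3 * Complex.log σ / (8 * Real.log 2)).re =
        (Real.log ‖C σ m‖ / 2 ^ m - σ.re) + (Real.log ‖1 + w‖ / 2 ^ m - (e σ m / 2).re)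
        + ((e σ m / 2).re - (-(σ ^ 3 * Complex.log σ / (8 * Real.log 2))).re) := by
      rw [hlog, Complex.sub_re, Complex.neg_re]; ring
    rw [e1]
    have t1 := abs_add_le ((Real.log ‖C σ m‖ / 2 ^ m - σ.re)
      + (Real.log ‖1 + w‖ / 2 ^ m - (e σ m / 2).re))
      ((e σ m / 2).re - (-(σ ^ 3 * Complex.log σ / (8 * Real.log 2))).re)
    have t2 := abs_add_le (Real.log ‖C σ m‖ / 2 ^ m - σ.re)
      (Real.log ‖1 + w‖ / 2 ^ m - (e σ m / 2).re)
    linarith
  have hqlow : x ≤ ‖q σ m‖ := by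
    rw [hqm, norm_mul, hCm, norm_mul]
    simp only [Complex.norm_ofNat]
    have h5 : 1 / 2 ≤ ‖1 + w‖ := by
      have := norm_sub_norm_le (1 : ℂ) (-w)
      rw [norm_one, norm_neg, sub_neg_eq_add] at this
      linarith
    have h6 := hzS.cosh_ge
    have h7 : x ≤ Real.sinh x := Real.self_le_sinh_iff.2 hx0.le
    have h8 : x ≤ ‖cosh z‖ := h7.trans h6
    nlinarith [norm_nonneg (cosh z)]
  have hq4 : 4 ≤ ‖q σ m‖ := by
    refine le_trans ?_ hqlow
    refine le_trans ?_ hxr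
    rw [le_div_iff₀ (by positivity)]
    linarith
  refine ⟨m, fun n hn => ?_⟩
  obtain ⟨j, rfl⟩ := Nat.exists_eq_add_of_le hn
  have hc3 : ‖(-2 - 3 / 2 * σ ^ 2 : ℂ)‖ ≤ 3 := by
    refine (norm_sub_le _ _).trans ?_
    rw [norm_neg, norm_mul, norm_div, norm_pow, ← hr]
    simp only [Complex.norm_ofNat]
    nlinarith
  obtain ⟨h5, h6⟩ := escape hc3 (p := q σ) (fun n => by rw [q_succ]; ring) hq4 j
  refine ⟨hq4.trans h5, ?_⟩
  have h7 : 6 / ‖q σ m‖ ^ 2 * (1 / 2 ^ m - 1 / 2 ^ (m + j)) ≤ 189 * r ^ 3 := by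
    have h8 : (0 : ℝ) < 1 / 2 ^ (m + j) := by positivity
    have h9 : 6 / ‖q σ m‖ ^ 2 ≤ 96 * r ^ 2 := by
      have h10 : 1 ≤ 4 * r * ‖q σ m‖ := by
        rw [div_le_iff₀ (by positivity)] at hxr
        nlinarith
      rw [div_le_iff₀ (by positivity)]
      nlinarith
    calc 6 / ‖q σ m‖ ^ 2 * (1 / 2 ^ m - 1 / 2 ^ (m + j))
        ≤ 6 / ‖q σ m‖ ^ 2 * (1 / 2 ^ m) := by
          apply mul_le_mul_of_nonneg_left _ (by positivity)
          linarith
      _ ≤ (96 * r ^ 2) * (2 * r ^ 2) := by gcongr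
      _ = 192 * r * r ^ 3 := by ring
      _ ≤ 189 * r ^ 3 := by
          have : (0 : ℝ) ≤ r ^ 3 := by positivity
          nlinarith
  have e2 : Real.log ‖q σ (m + j)‖ / 2 ^ (m + j) -
      (σ - σ ^ 3 * Complex.log σ / (8 * Real.log 2)).re =
      (Real.log ‖q σ (m + j)‖ / 2 ^ (m + j) - Real.log ‖q σ m‖ / 2 ^ m) +
      (Real.log ‖q σ m‖ / 2 ^ m - (σ - σ ^ 3 * Complex.log σ / (8 * Real.log 2)).re) := by ring
  rw [e2]
  refine (abs_add_le _ _).trans ?_
  linarith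

end Pool.Agent.T6.H68.Tip
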