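import Pool.Agent.W677.MB4
import Pool.Agent.T6.H68.Tip.Pot

set_option autoImplicit false

/-! # The exterior map near the tip: moduli and reality -/

namespace Pool.Agent.T6.H68.Tip

open Complex Metric Set Filter Topology Pool.Agent.H712R2 Pool.Agent.H713R2 N62a1eb23
open Pool.Agent.W677.MB

theorem tendsto_log {ψ : ℂ → ℂ} (hψ : IsExteriorMap (multibrotSet 2) ψ) {w : ℂ} (hw : 1 < ‖w‖) :
    Tendsto (fun n : ℕ => Real.log ‖P 2 (n + 1) (ψ w)‖ / 2 ^ n) atTop (𝓝 (Real.log ‖w‖)) := by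
  obtain ⟨β, hβ⟩ := exists_beta (d := 2) le_rfl
  rw [exteriorMap_unique hβ hψ hw]
  obtain ⟨hx, hx0⟩ := inv_mem_ball hw
  obtain ⟨κ, hκ⟩ : ∃ κ, κ = Real.exp (-(2 * Real.log 2 * ‖w⁻¹‖ / (1 - ‖w⁻¹‖))) := ⟨_, rfl⟩
  have hκ0 : 0 < κ := by rw [hκ]; exact Real.exp_pos _
  have hwpos : 0 < ‖w‖ := by linarith
  have key : ∀ n : ℕ, Real.log ‖P 2 (n + 1) (w * β w⁻¹)‖ / 2 ^ n =
      Real.log ‖w‖ + Real.log ‖BB 2 β n w⁻¹‖ / 2 ^ n := by
    intro n
    have h1 := BB_eq le_rfl β n w⁻¹ hx0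
    rw [inv_inv] at h1
    have h2 : ‖P 2 (n + 1) (w * β w⁻¹)‖ = ‖w‖ ^ (2 ^ n) * ‖BB 2 β n w⁻¹‖ := by
      rw [h1, norm_mul, norm_pow, norm_inv, ← mul_assoc, ← mul_pow, mul_inv_cancel₀ hwpos.ne',
        one_pow, one_mul]
    have h3 : 0 < ‖BB 2 β n w⁻¹‖ := by
      have := BB_lower le_rfl hβ n hx
      rw [← hκ] at this
      linarith
    rw [h2, Real.log_mul (by positivity) h3.ne', Real.log_pow]
    push_cast
    field_simp
  simp only [key]
  have hlim : Tendsto (fun n : ℕ => Real.log ‖BB 2 β n w⁻¹‖ / 2 ^ n) atTop (𝓝 0) := by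
    apply squeeze_zero_norm (a := fun n : ℕ => (|Real.log κ| + |Real.log 2|) / 2 ^ n)
    · intro n
      rw [Real.norm_eq_abs, abs_div, abs_of_pos (show (0 : ℝ) < 2 ^ n by positivity)]
      apply div_le_div_of_nonneg_right _ (by positivity)
      have h1 := BB_lower le_rfl hβ n hx
      rw [← hκ] at h1
      have h2 := AR.BB_le_two le_rfl hβ n hx
      have h3 : Real.log κ ≤ Real.log ‖BB 2 β n w⁻¹‖ := Real.log_le_log hκ0 h1
      have h4 : Real.log ‖BB 2 β n w⁻¹‖ ≤ Real.log 2 := Real.log_le_log (by linarith) h2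
      rw [abs_le]
      have h5 := neg_abs_le (Real.log κ)
      have h6 := le_abs_self (Real.log 2)
      have h7 := abs_nonneg (Real.log κ)
      have h8 := abs_nonneg (Real.log 2)
      constructor <;> linarith
    · have : Tendsto (fun n : ℕ => (2 : ℝ) ^ n) atTop atTop :=
        tendsto_pow_atTop_atTop_of_one_lt (by norm_num)
      exact this.const_div_atTop _
  simpa using hlim.const_add (Real.log ‖w‖)

theorem P_conj (n : ℕ) (c : ℂ) : P 2 n ((starRingEnd ℂ) c) = (starRingEnd ℂ) (P 2 n c) := by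
  induction n with
  | zero => simp [P_zero]
  | succ n ih => rw [P_succ, P_succ, ih]; simp

theorem mem_conj (c : ℂ) : (starRingEnd ℂ) c ∈ multibrotSet 2 ↔ c ∈ multibrotSet 2 := by
  rw [mem_multibrot_iff le_rfl, mem_multibrot_iff le_rfl]
  simp only [P_conj, Complex.norm_conj]

theorem psi_conj {ψ : ℂ → ℂ} (hψ : IsExteriorMap (multibrotSet 2) ψ) {w : ℂ} (hw : 1 < ‖w‖) :
    ψ ((starRingEnd ℂ) w) = (starRingEnd ℂ) (ψ w) := by
  obtain ⟨β, hβ⟩ := exists_beta (d := 2) le_rfl
  have hopen : IsOpen {z : ℂ | 1 < ‖z‖} := isOpen_lt continuous_const continuous_norm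
  have h1 : IsExteriorMap (multibrotSet 2) (fun z => (starRingEnd ℂ) (ψ ((starRingEnd ℂ) z))) := by
    refine ⟨?_, ?_, ?_, ?_⟩
    · intro z hz
      have hz' : 1 < ‖(starRingEnd ℂ) z‖ := by rw [Complex.norm_conj]; exact hz
      have h2 : DifferentiableAt ℂ ψ ((starRingEnd ℂ) z) :=
        hψ.diff.differentiableAt (hopen.mem_nhds hz')
      have h3 := h2.conj_conj
      rw [Complex.conj_conj] at h3
      exact h3.differentiableWithinAt
    · intro z hz y hy hzy
      have hz' : 1 < ‖(starRingEnd ℂ) z‖ := by rw [Complex.norm_conj]; exact hz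
      have hy' : 1 < ‖(starRingEnd ℂ) y‖ := by rw [Complex.norm_conj]; exact hy
      have h2 := hψ.inj hz' hy' ((starRingEnd ℂ).injective hzy)
      exact (starRingEnd ℂ).injective h2
    · ext c
      constructor
      · rintro ⟨z, hz, rfl⟩
        have hz' : 1 < ‖(starRingEnd ℂ) z‖ := by rw [Complex.norm_conj]; exact hz
        have h2 : ψ ((starRingEnd ℂ) z) ∈ (multibrotSet 2)ᶜ := by
          rw [← hψ.image]; exact mem_image_of_mem ψ hz'
        intro h3
        exact h2 ((mem_conj _).1 h3)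
      · intro hc
        have h2 : (starRingEnd ℂ) c ∈ (multibrotSet 2)ᶜ := fun h3 => hc ((mem_conj _).1 h3)
        rw [← hψ.image] at h2
        obtain ⟨z, hz, hzc⟩ := h2
        refine ⟨(starRingEnd ℂ) z, ?_, ?_⟩
        · show 1 < ‖(starRingEnd ℂ) z‖
          rw [Complex.norm_conj]; exact hz
        · simp only [Complex.conj_conj]
          rw [hzc, Complex.conj_conj]
    · have h2 : Tendsto (fun z : ℂ => (starRingEnd ℂ) z) (Bornology.cobounded ℂ)
          (Bornology.cobounded ℂ) := by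
        rw [← tendsto_norm_atTop_iff_cobounded]
        simp only [Complex.norm_conj]
        exact tendsto_norm_cobounded_atTop
      have h3 := (Complex.continuous_conj.tendsto (1 : ℂ)).comp (hψ.infinity.comp h2)
      simp only [map_one] at h3
      refine h3.congr fun z => ?_
      simp
  have e1 := exteriorMap_unique hβ h1 hw
  have e2 := exteriorMap_unique hβ hψ hw
  rw [← e2] at e1
  have e3 := congrArg (starRingEnd ℂ) e1
  simpa using e3

theorem P_eq_q (σ : ℂ) (n : ℕ) : P 2 (n + 2) (-2 - 3 / 2 * σ ^ 2) = q σ (n + 1) := by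
  induction n with
  | zero =>
    rw [P_succ, P_one le_rfl, q_succ]
    simp only [q]
    ring
  | succ n ih =>
    rw [show n + 1 + 2 = (n + 2) + 1 by ring, P_succ, ih, q_succ σ (n + 1)]
    ring

/-- the model for the logarithm of the exterior coordinate -/
noncomputable def LL (σ : ℂ) : ℂ := σ - σ ^ 3 * Complex.log σ / (8 * Real.log 2)

theorem exists_w {ψ : ℂ → ℂ} (hψ : IsExteriorMap (multibrotSet 2) ψ) {σ : ℂ} (h : Sec σ)
    (hσ : ‖σ‖ ≤ (1 / 150) ^ 4) : ∃ w : ℂ, 1 < ‖w‖ ∧ ψ w = -2 - 3 / 2 * σ ^ 2 ∧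
      |Real.log ‖w‖ - (LL σ).re| ≤ 250 * ‖σ‖ ^ 3 := by
  obtain ⟨m, hm⟩ := green_tip h hσ
  have hc : (-2 - 3 / 2 * σ ^ 2 : ℂ) ∉ multibrotSet 2 := by
    intro h1
    rw [mem_multibrot_iff le_rfl] at h1
    have h2 := h1 (m + 2)
    rw [P_eq_q] at h2
    have h3 := (hm (m + 1) (by omega)).1
    linarith
  have h1 : (-2 - 3 / 2 * σ ^ 2 : ℂ) ∈ ψ '' {z | 1 < ‖z‖} := by
    rw [hψ.image]; exact hc
  obtain ⟨w, hw, hwc⟩ := h1
  have hw' : 1 < ‖w‖ := hw
  refine ⟨w, hw, hwc, ?_⟩
  have h2 := (tendsto_log hψ hw').comp (tendsto_add_atTop_nat 1)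
  have h3 : Tendsto (fun n : ℕ => |Real.log ‖q σ (n + 1)‖ / 2 ^ (n + 1) - (LL σ).re|) atTop
      (𝓝 |Real.log ‖w‖ - (LL σ).re|) := by
    refine ((h2.sub_const _).abs).congr fun n => ?_
    simp only [Function.comp]
    rw [hwc, show n + 1 + 1 = n + 2 by ring, P_eq_q]
  refine le_of_tendsto h3 ?_
  filter_upwards [eventually_ge_atTop m] with n hn
  exact (hm (n + 1) (by omega)).2

/-- reality -/
theorem w_real {ψ : ℂ → ℂ} (hψ : IsExteriorMap (multibrotSet 2) ψ) {w : ℂ} (hw : 1 < ‖w‖)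
    {c : ℝ} (hc : c < 0) (hwc : ψ w = c) : w = -(‖w‖ : ℂ) := by
  have h1 : (starRingEnd ℂ) w = w := by
    have hw' : 1 < ‖(starRingEnd ℂ) w‖ := by rw [Complex.norm_conj]; exact hw
    apply hψ.inj hw' hw
    rw [psi_conj hψ hw, hwc, Complex.conj_ofReal]
  rw [Complex.conj_eq_iff_real] at h1
  obtain ⟨x, hx⟩ := h1
  rw [hx, Complex.norm_real, Real.norm_eq_abs] at hw
  rcases lt_or_ge x 0 with hx0 | hx0
  · rw [hx, Complex.norm_real, Real.norm_eq_abs, abs_of_neg hx0]
    push_cast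
    ring
  · exfalso
    rw [abs_of_nonneg hx0] at hw
    -- the real trace of `ψ` on `(1, ∞)` is positive
    have hopen : IsOpen {z : ℂ | 1 < ‖z‖} := isOpen_lt continuous_const continuous_norm
    have hmem : ∀ y : ℝ, 1 < y → 1 < ‖(y : ℂ)‖ := fun y hy => by
      rw [Complex.norm_real, Real.norm_eq_abs, abs_of_pos (by linarith)]; exact hy
    have hreal : ∀ y : ℝ, 1 < y → (ψ y).im = 0 := fun y hy => by
      have := psi_conj hψ (hmem y hy)
      rw [Complex.conj_ofReal] at this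
      exact Complex.conj_eq_iff_im.1 this.symm
    have hcont : ContinuousOn (fun y : ℝ => (ψ y).re) (Ioi 1) := by
      intro y hy
      have h2 : ContinuousAt ψ (y : ℂ) :=
        (hψ.diff.differentiableAt (hopen.mem_nhds (hmem y hy))).continuousAt
      have h3 : ContinuousAt (fun y : ℝ => ψ y) y :=
        ContinuousAt.comp (g := ψ) (f := fun y : ℝ => (y : ℂ)) h2 Complex.continuous_ofReal.continuousAt
      exact (Complex.continuous_re.continuousAt.comp h3).continuousWithinAt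
    have hne : ∀ y : ℝ, 1 < y → (ψ y).re ≠ 0 := by
      intro y hy h2
      have h3 : ψ y = 0 := Complex.ext h2 (hreal y hy)
      have h4 : ψ y ∈ (multibrotSet 2)ᶜ := by
        rw [← hψ.image]; exact mem_image_of_mem ψ (hmem y hy)
      apply h4
      rw [h3, mem_multibrot_iff le_rfl]
      intro k
      have : P 2 k 0 = 0 := by
        induction k with
        | zero => rfl
        | succ k ih => rw [P_succ, ih]; simp
      rw [this]; simp
    have hneg : (ψ x).re < 0 := by rw [← hx, hwc]; simpa using hc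
    obtain ⟨y, hy1, hy2⟩ : ∃ y : ℝ, x < y ∧ 0 < (ψ y).re := by
      have h2 : Tendsto (fun y : ℝ => (y : ℂ)) atTop (Bornology.cobounded ℂ) := by
        rw [← tendsto_norm_atTop_iff_cobounded]
        simp only [Complex.norm_real]
        exact tendsto_norm_atTop_atTop
      have h3 := hψ.infinity.comp h2
      have h4 : Tendsto (fun y : ℝ => (ψ y / y).re) atTop (𝓝 1) := by
        have := (Complex.continuous_re.tendsto (1 : ℂ)).comp h3
        rw [Complex.one_re] at this
        exact this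
      obtain ⟨y, hy⟩ := ((h4.eventually (lt_mem_nhds (show (0 : ℝ) < 1 by norm_num))).and
        (eventually_gt_atTop (max x 1))).exists
      refine ⟨y, (le_max_left _ _).trans_lt hy.2, ?_⟩
      have hy1 : 1 < y := (le_max_right _ _).trans_lt hy.2
      have h6 := hy.1
      rw [Complex.div_ofReal_re] at h6
      exact (div_pos_iff_of_pos_right (by linarith)).1 h6
    have h2 := hcont.mono (fun z hz => (show (1 : ℝ) < z from lt_of_lt_of_le hw hz.1) :
      Icc x y ⊆ Ioi 1)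
    obtain ⟨z, hz1, hz2⟩ := intermediate_value_Icc hy1.le h2 (show (0 : ℝ) ∈ Icc _ _ from
      ⟨hneg.le, hy2.le⟩)
    exact hne z (lt_of_lt_of_le hw hz1.1) hz2

end Pool.Agent.T6.H68.Tip
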