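import Pool.Agent.T6.H68.Tip.Loc

set_option autoImplicit false

/-! # The exterior map near the tip: the asymptotic expansion, algebra -/

namespace Pool.Agent.T6.H68.Tip

open Complex Metric Set Filter Topology Pool.Agent.H712R2 Pool.Agent.H713R2 N62a1eb23

theorem log_sub_le {a b : ℂ} (ha : 0 < ‖a‖) (hb : 0 < ‖b‖) (h1 : ‖a‖ ≤ 2 * ‖b‖)
    (h2 : ‖b‖ ≤ 2 * ‖a‖) : ‖Complex.log a - Complex.log b‖ ≤ 9 := by
  have e1 : Complex.log a - Complex.log b =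
      ((Real.log ‖a‖ - Real.log ‖b‖ : ℝ) : ℂ) + ((a.arg - b.arg : ℝ) : ℂ) * I := by
    rw [Complex.log, Complex.log]
    push_cast
    ring
  rw [e1]
  refine (norm_add_le _ _).trans ?_
  rw [norm_mul, Complex.norm_I, mul_one, Complex.norm_real, Complex.norm_real,
    Real.norm_eq_abs, Real.norm_eq_abs]
  have h3 : |Real.log ‖a‖ - Real.log ‖b‖| ≤ 1 := by
    have h4 := Real.log_le_log ha h1
    have h5 := Real.log_le_log hb h2
    rw [Real.log_mul (by norm_num) (by positivity)] at h4 h5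
    have := Real.log_two_lt_d9
    rw [abs_le]
    constructor <;> linarith
  have h4 : |a.arg - b.arg| ≤ 8 := by
    have h5 := Complex.abs_arg_le_pi a
    have h6 := Complex.abs_arg_le_pi b
    have h7 := Real.pi_lt_d2
    have h8 := abs_sub (a.arg) (b.arg)
    linarith
  linarith

theorem psi_asym {ψ : ℂ → ℂ} (hψ : IsExteriorMap (multibrotSet 2) ψ) {s : ℝ} (hs : 0 < s)
    (hs1 : s ≤ (1 / 200) ^ 4) {t : ℂ} (ht : ‖t - s‖ < s / 50) :
    ‖ψ (-Complex.exp t) + 2 + 3 / 2 * t ^ 2 + 3 * AA * (t ^ 4 * Complex.log t)‖ ≤ 9000 * s ^ 4 := by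
  have hs2 : s ≤ 1 / 100000000 := hs1.trans (by norm_num)
  obtain ⟨σ, hσ1, hσ2, hσ3⟩ := exists_sigma hψ hs hs1 ht
  obtain ⟨-, hσ4, hσ5⟩ := mem_ball_sec hs (hσ1.trans (by linarith))
  obtain ⟨-, ht4, ht5⟩ := mem_ball_sec hs (ht.le.trans (by linarith))
  have hσ6 : ‖σ‖ ≤ 11 / 10 * s := by
    have h4 : σ = (σ - s) + s := by ring
    have h5 := norm_add_le (σ - s) (s : ℂ)
    rw [← h4, Complex.norm_real, Real.norm_eq_abs, abs_of_pos hs] at h5
    linarith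
  have ht6 : ‖t‖ ≤ 11 / 10 * s := by
    have h4 : t = (t - s) + s := by ring
    have h5 := norm_add_le (t - s) (s : ℂ)
    rw [← h4, Complex.norm_real, Real.norm_eq_abs, abs_of_pos hs] at h5
    linarith
  have hσ0 : 0 < ‖σ‖ := by linarith
  have ht0 : 0 < ‖t‖ := by linarith
  set η : ℂ := t - LL σ with hη
  set δ : ℂ := t - σ with hδ
  have hδη : δ = η - AA * (σ ^ 3 * Complex.log σ) := by
    rw [hδ, hη, LL_eq]; ring
  have hc := corr_le hσ0 (by linarith)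
  have hδn : ‖δ‖ ≤ 3 * s ^ 2 := by
    rw [hδη]
    refine (norm_sub_le _ _).trans ?_
    have h1 : ‖σ‖ ^ 2 ≤ (11 / 10 * s) ^ 2 := pow_le_pow_left₀ (norm_nonneg _) hσ6 2
    have h2 : 2500 * s ^ 3 ≤ s ^ 2 := by
      have : s ^ 3 = s * s ^ 2 := by ring
      rw [this]
      nlinarith [sq_nonneg s]
    nlinarith
  have key : ψ (-Complex.exp t) + 2 + 3 / 2 * t ^ 2 + 3 * AA * (t ^ 4 * Complex.log t) =
      3 * AA * ((t ^ 4 - σ ^ 4) * Complex.log t + σ ^ 4 * (Complex.log t - Complex.log σ))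
      + 3 * σ * η + 3 / 2 * δ ^ 2 := by
    have h1 : t = σ + δ := by rw [hδ]; ring
    have h2 : η = δ + AA * (σ ^ 3 * Complex.log σ) := by rw [hδη]; ring
    rw [hσ2, h2]
    have h3 : t ^ 2 = σ ^ 2 + 2 * σ * δ + δ ^ 2 := by rw [h1]; ring
    rw [h3]
    ring
  rw [key]
  have hs4 : (0 : ℝ) < s ^ 4 := by positivity
  have b1 : ‖3 * σ * η‖ ≤ 8250 * s ^ 4 := by
    rw [norm_mul, norm_mul]
    simp only [Complex.norm_ofNat]
    calc 3 * ‖σ‖ * ‖η‖ ≤ 3 * (11 / 10 * s) * (2500 * s ^ 3) := by gcongr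
      _ = 8250 * s ^ 4 := by ring
  have b2 : ‖3 / 2 * δ ^ 2‖ ≤ 14 * s ^ 4 := by
    rw [norm_mul, norm_div, norm_pow]
    simp only [Complex.norm_ofNat]
    calc 3 / 2 * ‖δ‖ ^ 2 ≤ 3 / 2 * (3 * s ^ 2) ^ 2 := by gcongr
      _ = 27 / 2 * s ^ 4 := by ring
      _ ≤ 14 * s ^ 4 := by linarith
  have b3 : ‖(t ^ 4 - σ ^ 4) * Complex.log t‖ ≤ 50 * s ^ 4 := by
    have h1 : t ^ 4 - σ ^ 4 = δ * (t ^ 3 + t ^ 2 * σ + t * σ ^ 2 + σ ^ 3) := by rw [hδ]; ring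
    have h2 : ‖t ^ 3 + t ^ 2 * σ + t * σ ^ 2 + σ ^ 3‖ ≤ 4 * (11 / 10 * s) ^ 3 := by
      have e1 := norm_add_le (t ^ 3 + t ^ 2 * σ + t * σ ^ 2) (σ ^ 3)
      have e2 := norm_add_le (t ^ 3 + t ^ 2 * σ) (t * σ ^ 2)
      have e3 := norm_add_le (t ^ 3) (t ^ 2 * σ)
      have f1 : ‖t ^ 3‖ ≤ (11 / 10 * s) ^ 3 := by
        rw [norm_pow]; exact pow_le_pow_left₀ (norm_nonneg _) ht6 3
      have f4 : ‖σ ^ 3‖ ≤ (11 / 10 * s) ^ 3 := by
        rw [norm_pow]; exact pow_le_pow_left₀ (norm_nonneg _) hσ6 3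
      have f2 : ‖t ^ 2 * σ‖ ≤ (11 / 10 * s) ^ 3 := by
        rw [norm_mul, norm_pow]
        calc ‖t‖ ^ 2 * ‖σ‖ ≤ (11 / 10 * s) ^ 2 * (11 / 10 * s) := by gcongr
          _ = (11 / 10 * s) ^ 3 := by ring
      have f3 : ‖t * σ ^ 2‖ ≤ (11 / 10 * s) ^ 3 := by
        rw [norm_mul, norm_pow]
        calc ‖t‖ * ‖σ‖ ^ 2 ≤ (11 / 10 * s) * (11 / 10 * s) ^ 2 := by gcongr
          _ = (11 / 10 * s) ^ 3 := by ring
      linarith
    have h3 := norm_log_le ht0 (by linarith)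
    have h4 : 1 / ‖t‖ + 4 ≤ 2 / s := by
      have h5 : 1 / ‖t‖ ≤ 4 / 3 / s := by
        rw [div_le_div_iff₀ ht0 hs]
        linarith
      have h6 : 4 ≤ 2 / 3 / s := by
        rw [le_div_iff₀ hs]
        linarith
      have h7 : 2 / s = 4 / 3 / s + 2 / 3 / s := by field_simp; norm_num
      linarith
    rw [h1, norm_mul, norm_mul]
    calc ‖δ‖ * ‖t ^ 3 + t ^ 2 * σ + t * σ ^ 2 + σ ^ 3‖ * ‖Complex.log t‖
        ≤ (3 * s ^ 2) * (4 * (11 / 10 * s) ^ 3) * (2 / s) := by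
          have := h3.trans h4
          gcongr
      _ = 24 * (11 / 10) ^ 3 * s ^ 4 := by field_simp; ring
      _ ≤ 50 * s ^ 4 := by nlinarith
  have b4 : ‖σ ^ 4 * (Complex.log t - Complex.log σ)‖ ≤ 20 * s ^ 4 := by
    rw [norm_mul, norm_pow]
    have h1 := log_sub_le ht0 hσ0 (by linarith) (by linarith)
    calc ‖σ‖ ^ 4 * ‖Complex.log t - Complex.log σ‖ ≤ (11 / 10 * s) ^ 4 * 9 := by gcongr
      _ = 9 * (11 / 10) ^ 4 * s ^ 4 := by ring
      _ ≤ 20 * s ^ 4 := by nlinarith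
  have b5 : ‖3 * (AA : ℂ) * ((t ^ 4 - σ ^ 4) * Complex.log t +
      σ ^ 4 * (Complex.log t - Complex.log σ))‖ ≤ 70 * s ^ 4 := by
    rw [norm_mul, norm_mul, Complex.norm_real, Real.norm_eq_abs, abs_of_pos AA_pos]
    simp only [Complex.norm_ofNat]
    have h1 := norm_add_le ((t ^ 4 - σ ^ 4) * Complex.log t) (σ ^ 4 * (Complex.log t - Complex.log σ))
    have h2 := AA_le
    have h3 := AA_pos
    calc 3 * AA * ‖(t ^ 4 - σ ^ 4) * Complex.log t + σ ^ 4 * (Complex.log t - Complex.log σ)‖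
        ≤ 1 * (70 * s ^ 4) := by
          apply mul_le_mul (by linarith) (by linarith) (norm_nonneg _) (by norm_num)
      _ = 70 * s ^ 4 := one_mul _
  have t1 := norm_add_le (3 * (AA : ℂ) * ((t ^ 4 - σ ^ 4) * Complex.log t +
      σ ^ 4 * (Complex.log t - Complex.log σ)) + 3 * σ * η) (3 / 2 * δ ^ 2)
  have t2 := norm_add_le (3 * (AA : ℂ) * ((t ^ 4 - σ ^ 4) * Complex.log t +
      σ ^ 4 * (Complex.log t - Complex.log σ))) (3 * σ * η)
  linarith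

/-- a Cauchy step -/
theorem cauchy_step {f f' : ℂ → ℂ} {κ K r : ℝ} {j : ℕ} (hκ : 0 < κ) (hκ1 : κ ≤ 1 / 2) (hK : 0 ≤ K)
    (hder : ∀ t : ℂ, 0 < t.re → HasDerivAt f (f' t) t)
    (hb : ∀ s : ℝ, 0 < s → s ≤ r → ∀ t : ℂ, ‖t - s‖ < κ * s → ‖f t‖ ≤ K * s ^ (j + 1)) :
    ∀ s : ℝ, 0 < s → s ≤ r → ∀ t : ℂ, ‖t - s‖ < κ / 2 * s → ‖f' t‖ ≤ 4 * K / κ * s ^ j := by
  intro s hs hsr t ht
  have hre : ∀ z ∈ closedBall t (κ / 4 * s), 0 < z.re ∧ ‖z - s‖ < κ * s := by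
    intro z hz
    rw [mem_closedBall, dist_eq_norm] at hz
    have h1 : ‖z - s‖ < κ * s := by
      have : z - s = (z - t) + (t - s) := by ring
      rw [this]
      refine (norm_add_le _ _).trans_lt ?_
      nlinarith
    refine ⟨?_, h1⟩
    have h2 := (Complex.abs_re_le_norm (z - s)).trans h1.le
    rw [Complex.sub_re, Complex.ofReal_re, abs_le] at h2
    nlinarith
  have hR : 0 < κ / 4 * s := by positivity
  have hdc : DiffContOnCl ℂ f (ball t (κ / 4 * s)) := by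
    apply DifferentiableOn.diffContOnCl
    rw [closure_ball _ hR.ne']
    intro z hz
    exact (hder z (hre z hz).1).differentiableAt.differentiableWithinAt
  have h1 := Complex.norm_deriv_le_of_forall_mem_sphere_norm_le hR hdc (C := K * s ^ (j + 1))
    (fun z hz => hb s hs hsr z (hre z (sphere_subset_closedBall hz)).2)
  rw [(hder t (hre t (mem_closedBall_self hR.le)).1).deriv] at h1
  refine h1.trans (le_of_eq ?_)
  rw [pow_succ]
  field_simp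

end Pool.Agent.T6.H68.Tip
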