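import Pool.Agent.T6.H68.Tip.Ext

set_option autoImplicit false

/-! # The exterior map near the tip: the asymptotic expansion -/

namespace Pool.Agent.T6.H68.Tip

open Complex Metric Set Filter Topology Pool.Agent.H712R2 Pool.Agent.H713R2 N62a1eb23
open Pool.Agent.Helper202.Univ

theorem exists_log_ball {f : ℂ → ℂ} {c : ℂ} {r : ℝ} (hr : 0 < r)
    (hf : DifferentiableOn ℂ f (ball c r)) (h0 : ∀ z ∈ ball c r, f z ≠ 0) :
    ∃ g : ℂ → ℂ, DifferentiableOn ℂ g (ball c r) ∧ (∀ z ∈ ball c r, exp (g z) = f z) ∧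
      g c = Complex.log (f c) := by
  have hd : DifferentiableOn ℂ (fun z => deriv f z / f z) (ball c r) :=
    (hf.deriv isOpen_ball).div hf h0
  obtain ⟨F, hF0, hF⟩ := hd.isExactOn_ball.with_val_at c (Complex.log (f c))
  have hFd : DifferentiableOn ℂ F (ball c r) :=
    fun z hz => (hF z hz).differentiableAt.differentiableWithinAt
  refine ⟨F, hFd, fun z hz => ?_, hF0⟩
  have hz0 : c ∈ ball c r := mem_ball_self hr
  have hc : f z * exp (-F z) = f c * exp (-F c) := by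
    refine isOpen_ball.is_const_of_deriv_eq_zero (convex_ball c r).isPreconnected
      (f := fun z => f z * exp (-F z)) (hf.mul hFd.neg.cexp) ?_ hz hz0
    intro x hx
    have h1 : HasDerivAt f (deriv f x) x :=
      (hf.differentiableAt (isOpen_ball.mem_nhds hx)).hasDerivAt
    have h2 := h1.mul (hF x hx).neg.cexp
    simp only [Pi.zero_apply]
    refine Eq.trans h2.deriv ?_
    have := h0 x hx
    field_simp
    ring
  rw [hF0, exp_neg, exp_neg, exp_log (h0 c hz0), mul_inv_cancel₀ (h0 c hz0)] at hc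
  have := mul_inv_eq_one₀ (exp_ne_zero (F z)) |>.1 hc
  exact this.symm

theorem mem_ball_sec {s : ℝ} (hs : 0 < s) {σ : ℂ} (hσ : ‖σ - s‖ ≤ s / 4) :
    Sec σ ∧ ‖σ‖ ≤ 5 / 4 * s ∧ 3 / 4 * s ≤ ‖σ‖ := by
  have h1 := (Complex.abs_re_le_norm (σ - s)).trans hσ
  have h2 := (Complex.abs_im_le_norm (σ - s)).trans hσ
  rw [Complex.sub_re, Complex.ofReal_re] at h1
  rw [Complex.sub_im, Complex.ofReal_im, sub_zero] at h2
  rw [abs_le] at h1
  have h3 : 3 / 4 * s ≤ σ.re := by linarith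
  refine ⟨⟨by linarith, by linarith⟩, ?_, ?_⟩
  · have h4 : σ = (σ - s) + s := by ring
    have h5 := norm_add_le (σ - s) (s : ℂ)
    rw [← h4, Complex.norm_real, Real.norm_eq_abs, abs_of_pos hs] at h5
    linarith
  · exact h3.trans ((le_abs_self _).trans (Complex.abs_re_le_norm σ))

theorem norm_log_le {σ : ℂ} (h0 : 0 < ‖σ‖) (h1 : ‖σ‖ ≤ 1) : ‖Complex.log σ‖ ≤ 1 / ‖σ‖ + 4 := by
  have e1 : Complex.log σ = (Real.log ‖σ‖ : ℂ) + σ.arg * I := by rw [Complex.log]
  rw [e1]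
  refine (norm_add_le _ _).trans ?_
  rw [norm_mul, Complex.norm_I, mul_one, Complex.norm_real, Complex.norm_real,
    Real.norm_eq_abs, Real.norm_eq_abs]
  have h2 : |Real.log ‖σ‖| ≤ 1 / ‖σ‖ := by
    rw [abs_of_nonpos (Real.log_nonpos h0.le h1)]
    have := Real.add_one_le_exp (-Real.log ‖σ‖)
    rw [Real.exp_neg, Real.exp_log h0] at this
    rw [one_div]
    linarith
  have h3 : |σ.arg| ≤ 4 := by
    have := Complex.abs_arg_le_pi σ
    have := Real.pi_lt_d2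
    linarith
  linarith

noncomputable def AA : ℝ := 1 / (8 * Real.log 2)

theorem AA_pos : 0 < AA := by
  unfold AA
  have := Real.log_pos (show (1 : ℝ) < 2 by norm_num)
  positivity

theorem AA_le : AA ≤ 1 / 5 := by
  unfold AA
  have := Real.log_two_gt_d9
  apply one_div_le_one_div_of_le (by norm_num)
  linarith

theorem LL_eq (σ : ℂ) : LL σ = σ - AA * (σ ^ 3 * Complex.log σ) := by
  unfold LL AA
  push_cast
  ring

theorem corr_le {σ : ℂ} (h0 : 0 < ‖σ‖) (h1 : ‖σ‖ ≤ 1 / 8) :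
    ‖(AA : ℂ) * (σ ^ 3 * Complex.log σ)‖ ≤ ‖σ‖ ^ 2 := by
  have h2 := norm_log_le h0 (by linarith)
  rw [norm_mul, norm_mul, norm_pow, Complex.norm_real, Real.norm_eq_abs, abs_of_pos AA_pos]
  have h3 : ‖σ‖ ^ 3 * ‖Complex.log σ‖ ≤ ‖σ‖ ^ 3 * (1 / ‖σ‖ + 4) := by gcongr
  have h4 : ‖σ‖ ^ 3 * (1 / ‖σ‖ + 4) = ‖σ‖ ^ 2 * (1 + 4 * ‖σ‖) := by field_simp
  have h5 : ‖σ‖ ^ 2 * (1 + 4 * ‖σ‖) ≤ ‖σ‖ ^ 2 * 5 := by
    apply mul_le_mul_of_nonneg_left _ (by positivity)
    linarith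
  have h6 := AA_le
  have h7 := AA_pos
  calc AA * (‖σ‖ ^ 3 * ‖Complex.log σ‖) ≤ (1 / 5) * (‖σ‖ ^ 2 * 5) := by
        apply mul_le_mul h6 (by linarith) (by positivity) (by norm_num)
    _ = ‖σ‖ ^ 2 := by ring

theorem exists_sigma {ψ : ℂ → ℂ} (hψ : IsExteriorMap (multibrotSet 2) ψ) {s : ℝ} (hs : 0 < s)
    (hs1 : s ≤ (1 / 200) ^ 4) {t : ℂ} (ht : ‖t - s‖ < s / 50) :
    ∃ σ : ℂ, ‖σ - s‖ ≤ s / 10 ∧ ψ (-Complex.exp t) = -2 - 3 / 2 * σ ^ 2 ∧
      ‖t - LL σ‖ ≤ 2500 * s ^ 3 := by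
  have hs2 : s ≤ 1 / 100000000 := hs1.trans (by norm_num)
  have hopen : IsOpen {z : ℂ | 1 < ‖z‖} := isOpen_lt continuous_const continuous_norm
  have hD : ∀ σ ∈ ball (s : ℂ) (s / 4), Sec σ ∧ ‖σ‖ ≤ (1 / 150) ^ 4 ∧ ‖σ‖ ≤ 5 / 4 * s ∧
      3 / 4 * s ≤ ‖σ‖ := by
    intro σ hσ
    rw [mem_ball, dist_eq_norm] at hσ
    obtain ⟨h1, h2, h3⟩ := mem_ball_sec hs hσ.le
    refine ⟨h1, h2.trans ?_, h2, h3⟩
    refine (mul_le_mul_of_nonneg_left hs1 (by norm_num)).trans (by norm_num)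
  set W : ℂ → ℂ := fun σ => Function.invFunOn ψ {z | 1 < ‖z‖} (-2 - 3 / 2 * σ ^ 2) with hW
  have him : ∀ σ ∈ ball (s : ℂ) (s / 4), (-2 - 3 / 2 * σ ^ 2 : ℂ) ∈ ψ '' {z | 1 < ‖z‖} := by
    intro σ hσ
    obtain ⟨w, hw1, hw2, -⟩ := exists_w hψ (hD σ hσ).1 (hD σ hσ).2.1
    exact ⟨w, hw1, hw2⟩
  have hW1 : ∀ σ ∈ ball (s : ℂ) (s / 4), 1 < ‖W σ‖ := fun σ hσ => invFunOn_mem (him σ hσ)
  have hW2 : ∀ σ ∈ ball (s : ℂ) (s / 4), ψ (W σ) = -2 - 3 / 2 * σ ^ 2 := fun σ hσ =>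
    invFunOn_right (him σ hσ)
  have hW3 : ∀ σ ∈ ball (s : ℂ) (s / 4), |Real.log ‖W σ‖ - (LL σ).re| ≤ 500 * s ^ 3 := by
    intro σ hσ
    obtain ⟨h1, h2, h3, -⟩ := hD σ hσ
    obtain ⟨w, hw1, hw2, hw3⟩ := exists_w hψ h1 h2
    have h4 : W σ = w := hψ.inj (hW1 σ hσ) hw1 ((hW2 σ hσ).trans hw2.symm)
    rw [h4]
    refine hw3.trans ?_
    have h5 : ‖σ‖ ^ 3 ≤ (5 / 4 * s) ^ 3 := pow_le_pow_left₀ (norm_nonneg _) h3 3
    have h6 : (0 : ℝ) ≤ s ^ 3 := by positivity
    nlinarith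
  have hWd : DifferentiableOn ℂ (fun σ => -W σ) (ball (s : ℂ) (s / 4)) := by
    intro σ hσ
    apply DifferentiableAt.differentiableWithinAt
    apply DifferentiableAt.neg
    have h1 := differentiableAt_inv hopen hψ.diff hψ.inj (him σ hσ)
    have h2 : DifferentiableAt ℂ (fun σ : ℂ => (-2 - 3 / 2 * σ ^ 2 : ℂ)) σ := by fun_prop
    exact h1.comp σ h2
  obtain ⟨g, hgd, hge, hgs⟩ := exists_log_ball (by positivity : 0 < s / 4) hWd (by
    intro σ hσ h0
    have h1 := hW1 σ hσ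
    have h2 : W σ = 0 := neg_eq_zero.1 h0
    rw [h2, norm_zero] at h1
    linarith)
  have hsD : (s : ℂ) ∈ ball (s : ℂ) (s / 4) := mem_ball_self (by positivity)
  have hWs : W s = -(‖W s‖ : ℂ) := by
    have h1 := hW2 s hsD
    have h2 : (-2 - 3 / 2 * (s : ℂ) ^ 2 : ℂ) = ((-2 - 3 / 2 * s ^ 2 : ℝ) : ℂ) := by push_cast; ring
    rw [h2] at h1
    exact w_real hψ (hW1 s hsD) (by nlinarith) h1
  have hgs' : g s = (Real.log ‖W s‖ : ℂ) := by
    rw [hgs]
    have : -W s = (‖W s‖ : ℂ) := by rw [hWs]; simp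
    rw [this, Complex.ofReal_log (norm_nonneg _)]
  -- the error function
  set E : ℂ → ℂ := fun σ => g σ - LL σ with hE
  have hEd : DifferentiableOn ℂ E (ball (s : ℂ) (s / 4)) := by
    apply hgd.sub
    intro σ hσ
    apply DifferentiableAt.differentiableWithinAt
    have h1 : σ ∈ slitPlane := Or.inl (hD σ hσ).1.1
    unfold LL
    have h2 : DifferentiableAt ℂ Complex.log σ := Complex.differentiableAt_log h1
    have h3 : (8 * (Real.log 2 : ℂ)) ≠ 0 := by
      have : Real.log 2 ≠ 0 := (Real.log_pos (by norm_num)).ne'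
      exact mul_ne_zero (by norm_num) (by exact_mod_cast this)
    fun_prop (disch := assumption)
  have hgre : ∀ σ ∈ ball (s : ℂ) (s / 4), (g σ).re = Real.log ‖W σ‖ := by
    intro σ hσ
    have h1 := congrArg norm (hge σ hσ)
    rw [Complex.norm_exp, norm_neg] at h1
    rw [← h1, Real.log_exp]
  have hEre : ∀ σ ∈ ball (s : ℂ) (s / 4), |(E σ).re| ≤ 500 * s ^ 3 := by
    intro σ hσ
    simp only [hE, Complex.sub_re]
    rw [hgre σ hσ]
    exact hW3 σ hσ
  have hEs : ‖E s‖ ≤ 500 * s ^ 3 := by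
    have h1 : E s = ((Real.log ‖W s‖ - (s - AA * (s ^ 3 * Real.log s)) : ℝ) : ℂ) := by
      simp only [hE]
      rw [hgs', LL_eq]
      push_cast
      rw [← Complex.ofReal_log hs.le]
    have h2 := hEre s hsD
    rw [h1, Complex.ofReal_re] at h2
    rw [h1, Complex.norm_real, Real.norm_eq_abs]
    exact h2
  have hs3 : (0 : ℝ) < s ^ 3 := by positivity
  have hEbound : ∀ σ : ℂ, ‖σ - s‖ ≤ s / 8 → ‖E σ‖ ≤ 2500 * s ^ 3 := by
    intro σ hσ
    have h1 := Complex.borelCaratheodory_zero (f := fun z => E (s + z) - E s)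
      (M := 1000 * s ^ 3) (R := s / 4) (z := σ - s) (by positivity) ?_ ?_ (by positivity) ?_ ?_
    · have h2 : (s : ℂ) + (σ - s) = σ := by ring
      simp only [h2] at h1
      have h3 : 2 * (1000 * s ^ 3) * ‖σ - s‖ / (s / 4 - ‖σ - s‖) ≤ 2000 * s ^ 3 := by
        rw [div_le_iff₀ (by linarith)]
        nlinarith
      have h4 : E σ = (E σ - E s) + E s := by ring
      rw [h4]
      refine (norm_add_le _ _).trans ?_
      linarith
    · apply DifferentiableOn.sub_const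
      intro z hz
      apply DifferentiableAt.differentiableWithinAt
      have h2 : (s : ℂ) + z ∈ ball (s : ℂ) (s / 4) := by
        rw [mem_ball, dist_eq_norm, add_sub_cancel_left]
        exact mem_ball_zero_iff.1 hz
      have h3 : DifferentiableAt ℂ E (s + z) := hEd.differentiableAt (isOpen_ball.mem_nhds h2)
      have h4 : DifferentiableAt ℂ (fun z : ℂ => (s : ℂ) + z) z := by fun_prop
      exact h3.comp z h4
    · intro z hz
      have h2 : (s : ℂ) + z ∈ ball (s : ℂ) (s / 4) := by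
        rw [mem_ball, dist_eq_norm, add_sub_cancel_left]
        exact mem_ball_zero_iff.1 hz
      have h3 := (abs_le.1 (hEre _ h2)).2
      have h4 := (abs_le.1 (hEre _ hsD)).1
      show (E (s + z) - E s).re ≤ _
      rw [Complex.sub_re]
      linarith
    · rw [mem_ball_zero_iff]
      linarith
    · simp
  -- `g` is close to the identity
  have hLLid : ∀ σ : ℂ, ‖σ - s‖ ≤ s / 8 → ‖LL σ - σ‖ ≤ 2 * s ^ 2 := by
    intro σ hσ
    obtain ⟨h1, h2, h3⟩ := mem_ball_sec hs (hσ.trans (by linarith))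
    have h4 := corr_le (σ := σ) (by linarith) (by linarith)
    rw [LL_eq, sub_sub_cancel_left, norm_neg]
    refine h4.trans ?_
    have : ‖σ‖ ^ 2 ≤ (5 / 4 * s) ^ 2 := pow_le_pow_left₀ (norm_nonneg _) h2 2
    nlinarith
  have hgid : ∀ σ : ℂ, ‖σ - s‖ ≤ s / 8 → ‖g σ - σ‖ ≤ s / 1000 := by
    intro σ hσ
    have h1 := hEbound σ hσ
    have h2 := hLLid σ hσ
    have h3 : g σ - σ = E σ + (LL σ - σ) := by simp only [hE]; ring
    rw [h3]
    refine (norm_add_le _ _).trans ?_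
    have h4 : 2500 * s ^ 3 + 2 * s ^ 2 ≤ s / 1000 := by
      have h5 : s ^ 2 ≤ 1 / 100000000 * s := by nlinarith
      have h6 : s ^ 3 ≤ 1 / 100000000 * s := by
        have : s ^ 3 = s ^ 2 * s := by ring
        nlinarith
      linarith
    linarith
  have hdc : DiffContOnCl ℂ g (ball (s : ℂ) (s / 10)) := by
    apply DifferentiableOn.diffContOnCl
    rw [closure_ball _ (by positivity)]
    exact hgd.mono (closedBall_subset_ball (by linarith))
  have hopm := hdc.ball_subset_image_closedBall (by positivity) (ε := s / 12) ?_ ?_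
  · have htm : t ∈ ball (g s) (s / 12 / 2) := by
      rw [mem_ball, dist_eq_norm]
      have h1 : t - g s = (t - s) - (g s - s) := by ring
      rw [h1]
      have h2 := hgid s (by simp; linarith)
      refine (norm_sub_le _ _).trans_lt ?_
      linarith
    obtain ⟨σ, hσ1, hσ2⟩ := hopm htm
    rw [mem_closedBall, dist_eq_norm] at hσ1
    have hσD : σ ∈ ball (s : ℂ) (s / 4) := by
      rw [mem_ball, dist_eq_norm]; linarith
    refine ⟨σ, hσ1, ?_, ?_⟩
    · have h1 := hge σ hσD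
      rw [hσ2] at h1
      rw [h1, neg_neg]
      exact hW2 σ hσD
    · rw [← hσ2]
      exact hEbound σ (by linarith)
  · intro σ hσ
    rw [mem_sphere, dist_eq_norm] at hσ
    have h1 := hgid σ (by linarith)
    have h2 := hgid s (by simp; linarith)
    have h3 : σ - s = (g σ - g s) - (g σ - σ) + (g s - s) := by ring
    have h4 := norm_add_le ((g σ - g s) - (g σ - σ)) (g s - s)
    rw [← h3, hσ] at h4
    have h5 := norm_sub_le (g σ - g s) (g σ - σ)
    linarith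
  · have h1 : ∃ᶠ z in 𝓝[≠] (s : ℂ), z ∈ ball (s : ℂ) (s / 4) := by
      apply Eventually.frequently
      exact mem_nhdsWithin_of_mem_nhds (isOpen_ball.mem_nhds hsD)
    rw [frequently_nhdsWithin_iff] at h1
    refine h1.mono ?_
    rintro z ⟨hz1, hz2⟩ heq
    have h2 := hge z hz1
    have h3 := hge s hsD
    rw [heq, h3] at h2
    have h4 : W s = W z := neg_injective h2
    have h5 := hW2 z hz1
    rw [← h4, hW2 s hsD] at h5
    have h6 : (z - s) * (z + s) = 0 := by linear_combination (2 / 3 : ℂ) * h5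
    rcases mul_eq_zero.1 h6 with h7 | h7
    · exact hz2 (sub_eq_zero.1 h7)
    · have h8 := congrArg Complex.re h7
      rw [Complex.add_re, Complex.ofReal_re, Complex.zero_re] at h8
      have := (hD z hz1).1.1
      linarith

end Pool.Agent.T6.H68.Tip
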