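import Pool.Agent.T6.H68.Tip.Asy
import Pool.Agent.H713R2.Main1

set_option autoImplicit false

/-! # The exterior map near the tip: the Laurent coefficients -/

namespace Pool.Agent.T6.H68.Tip

open Complex Metric Set Filter Topology Pool.Agent.H712R2 Pool.Agent.H713R2 N62a1eb23

noncomputable def cf (b : ℕ → ℂ) (m : ℕ) : ℂ := (-1) ^ m * b m

theorem hasSum_cf {ψ : ℂ → ℂ} {b : ℕ → ℂ} (hb : HasLaurent ψ b) {x : ℂ} (hx : ‖x‖ < 1)
    (hx0 : x ≠ 0) : HasSum (fun m => cf b m * x ^ m) (ψ (-x⁻¹) + x⁻¹) := by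
  have h1 : 1 < ‖-x⁻¹‖ := by
    rw [norm_neg]
    exact one_lt_norm_inv (mem_ball_zero_iff.2 hx) hx0
  have h2 := hb _ h1
  rw [sub_neg_eq_add] at h2
  have e1 : (fun m => cf b m * x ^ m) = fun m => b m / (-x⁻¹) ^ m := by
    funext m
    have h3 : ((-1 : ℂ) ^ m) * (-1) ^ m = 1 := by rw [← mul_pow]; norm_num
    have h4 : x ^ m * (x ^ m)⁻¹ = 1 := mul_inv_cancel₀ (pow_ne_zero _ hx0)
    have h5 : (-x⁻¹) ^ m ≠ 0 := pow_ne_zero _ (neg_ne_zero.2 (inv_ne_zero hx0))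
    rw [eq_div_iff h5, neg_pow, inv_pow]
    unfold cf
    calc (-1) ^ m * b m * x ^ m * ((-1) ^ m * (x ^ m)⁻¹)
        = b m * (((-1) ^ m) * (-1) ^ m) * (x ^ m * (x ^ m)⁻¹) := by ring
      _ = b m := by rw [h3, h4, mul_one, mul_one]
  rw [e1]
  exact h2

noncomputable def F0 (b : ℕ → ℂ) (x : ℂ) : ℂ := ∑' m, cf b m * x ^ m

theorem summable_cf {ψ : ℂ → ℂ} {b : ℕ → ℂ} (hb : HasLaurent ψ b) {r : ℝ} (hr0 : 0 ≤ r)
    (hr : r < 1) : Summable (fun m => ‖cf b m‖ * r ^ m) := by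
  set r' : ℝ := (1 + r) / 2 with hr'
  have h1 : r < r' := by rw [hr']; linarith
  have h2 : r' < 1 := by rw [hr']; linarith
  have h3 : 0 < r' := by linarith
  have h4 := (hasSum_cf hb (x := (r' : ℂ)) (by
    rw [Complex.norm_real, Real.norm_eq_abs, abs_of_pos h3]; exact h2)
    (by exact_mod_cast h3.ne')).summable
  have h5 := h4.tendsto_atTop_zero
  obtain ⟨M, hM⟩ := h5.norm.bddAbove_range
  have hM' : ∀ m, ‖cf b m‖ * r' ^ m ≤ M := by
    intro m
    have := hM (mem_range_self m)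
    rw [norm_mul, norm_pow, Complex.norm_real, Real.norm_eq_abs, abs_of_pos h3] at this
    exact this
  have h6 : Summable (fun m : ℕ => M * (r / r') ^ m) := by
    apply Summable.mul_left
    apply summable_geometric_of_lt_one (by positivity)
    rw [div_lt_one h3]
    exact h1
  refine Summable.of_nonneg_of_le (fun m => by positivity) (fun m => ?_) h6
  have h7 : r ^ m = r' ^ m * (r / r') ^ m := by
    rw [← mul_pow]
    congr 1
    field_simp
  rw [h7, ← mul_assoc]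
  exact mul_le_mul_of_nonneg_right (hM' m) (by positivity)

theorem F0_diff {ψ : ℂ → ℂ} {b : ℕ → ℂ} (hb : HasLaurent ψ b) :
    DifferentiableOn ℂ (F0 b) (ball 0 1) := by
  intro x hx
  rw [mem_ball_zero_iff] at hx
  obtain ⟨r, hr1, hr2⟩ := exists_between hx
  have h1 : DifferentiableOn ℂ (F0 b) (ball 0 r) := by
    apply differentiableOn_tsum_of_summable_norm (summable_cf hb ((norm_nonneg x).trans hr1.le) hr2)
    · intro m
      fun_prop
    · exact isOpen_ball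
    · intro m y hy
      rw [mem_ball_zero_iff] at hy
      rw [norm_mul, norm_pow]
      gcongr
  exact (h1.differentiableAt (isOpen_ball.mem_nhds (mem_ball_zero_iff.2 hr1))).differentiableWithinAt

theorem F0_hasSum {ψ : ℂ → ℂ} {b : ℕ → ℂ} (hb : HasLaurent ψ b) {x : ℂ} (hx : x ∈ ball (0 : ℂ) 1) :
    HasSum (fun m => cf b m * x ^ m) (F0 b x) := by
  rw [mem_ball_zero_iff] at hx
  apply Summable.hasSum
  apply Summable.of_norm
  refine (summable_cf hb (norm_nonneg x) hx).congr fun m => ?_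
  rw [norm_mul, norm_pow]

theorem F0_tc {ψ : ℂ → ℂ} {b : ℕ → ℂ} (hb : HasLaurent ψ b) : cf b = tc (F0 b) := by
  apply tc_unique one_pos (F0_diff hb)
  filter_upwards [ball_mem_nhds (0 : ℂ) one_pos] with x hx
  exact F0_hasSum hb hx

noncomputable def FF (b : ℕ → ℂ) : ℕ → ℂ → ℂ
  | 0 => F0 b
  | k + 1 => fun x => x * deriv (FF b k) x

theorem FF_diff {ψ : ℂ → ℂ} {b : ℕ → ℂ} (hb : HasLaurent ψ b) (k : ℕ) :
    DifferentiableOn ℂ (FF b k) (ball 0 1) := by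
  induction k with
  | zero => exact F0_diff hb
  | succ k ih => exact differentiableOn_id.mul (ih.deriv isOpen_ball)

theorem FF_tc {ψ : ℂ → ℂ} {b : ℕ → ℂ} (hb : HasLaurent ψ b) (k m : ℕ) :
    tc (FF b k) m = (m : ℂ) ^ k * cf b m := by
  induction k with
  | zero =>
    rw [pow_zero, one_mul, F0_tc hb]
    rfl
  | succ k ih =>
    have := tc_id_mul_deriv (FF_diff hb k) m
    rw [show FF b (k + 1) = fun x => x * deriv (FF b k) x from rfl, this, ih, pow_succ]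
    ring

theorem FF_eq {ψ : ℂ → ℂ} {b : ℕ → ℂ} (hb : HasLaurent ψ b) (k : ℕ) {x : ℂ}
    (hx : x ∈ ball (0 : ℂ) 1) : FF b k x = ∑' m : ℕ, (-1) ^ m * (m : ℂ) ^ k * b m * x ^ m := by
  have h := hasSum_tc (FF_diff hb k) hx
  rw [← h.tsum_eq]
  apply tsum_congr
  intro m
  rw [FF_tc hb, cf]
  ring

theorem exp_mem {t : ℂ} (ht : 0 < t.re) : Complex.exp (-t) ∈ ball (0 : ℂ) 1 := by
  rw [mem_ball_zero_iff, Complex.norm_exp, Complex.neg_re, Real.exp_lt_one_iff]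
  linarith

theorem FF_hasDeriv {ψ : ℂ → ℂ} {b : ℕ → ℂ} (hb : HasLaurent ψ b) (k : ℕ) {t : ℂ}
    (ht : 0 < t.re) :
    HasDerivAt (fun t => FF b k (Complex.exp (-t))) (-FF b (k + 1) (Complex.exp (-t))) t := by
  have h1 : HasDerivAt (FF b k) (deriv (FF b k) (Complex.exp (-t))) (Complex.exp (-t)) :=
    ((FF_diff hb k).differentiableAt (isOpen_ball.mem_nhds (exp_mem ht))).hasDerivAt
  have h2 : HasDerivAt (fun t : ℂ => Complex.exp (-t)) (Complex.exp (-t) * (-1)) t :=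
    (hasDerivAt_neg t).cexp
  have h3 := h1.comp t h2
  refine h3.congr_deriv ?_
  show _ = -(Complex.exp (-t) * deriv (FF b k) (Complex.exp (-t)))
  ring

theorem psi_eq {ψ : ℂ → ℂ} {b : ℕ → ℂ} (hb : HasLaurent ψ b) {t : ℂ} (ht : 0 < t.re) :
    ψ (-Complex.exp t) = -Complex.exp t + FF b 0 (Complex.exp (-t)) := by
  have h1 := hasSum_cf hb (mem_ball_zero_iff.1 (exp_mem ht)) (Complex.exp_ne_zero _)
  have h2 := F0_hasSum hb (exp_mem ht)
  have h3 := h1.unique h2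
  rw [Complex.exp_neg, inv_inv] at h3
  have h4 : FF b 0 (Complex.exp (-t)) = F0 b (Complex.exp t)⁻¹ := by
    rw [Complex.exp_neg]; rfl
  rw [h4, ← h3]
  ring

noncomputable def E0 (b : ℕ → ℂ) (t : ℂ) : ℂ :=
  -Complex.exp t + FF b 0 (Complex.exp (-t)) + 2 + 3 / 2 * t ^ 2 + 3 * AA * (t ^ 4 * Complex.log t)
noncomputable def E1 (b : ℕ → ℂ) (t : ℂ) : ℂ :=
  -Complex.exp t - FF b 1 (Complex.exp (-t)) + 3 * t
    + 3 * AA * (4 * t ^ 3 * Complex.log t + t ^ 3)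
noncomputable def E2 (b : ℕ → ℂ) (t : ℂ) : ℂ :=
  -Complex.exp t + FF b 2 (Complex.exp (-t)) + 3
    + 3 * AA * (12 * t ^ 2 * Complex.log t + 7 * t ^ 2)
noncomputable def E3 (b : ℕ → ℂ) (t : ℂ) : ℂ :=
  -Complex.exp t - FF b 3 (Complex.exp (-t)) + 3 * AA * (24 * t * Complex.log t + 26 * t)
noncomputable def E4 (b : ℕ → ℂ) (t : ℂ) : ℂ :=
  -Complex.exp t + FF b 4 (Complex.exp (-t)) + 3 * AA * (24 * Complex.log t + 50)

theorem E0_deriv {ψ : ℂ → ℂ} {b : ℕ → ℂ} (hb : HasLaurent ψ b) (t : ℂ) (ht : 0 < t.re) :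
    HasDerivAt (E0 b) (E1 b t) t := by
  have ht0 : t ≠ 0 := by rintro rfl; simp at ht
  have h1 := (Complex.hasDerivAt_exp t).neg
  have h2 := FF_hasDeriv hb 0 ht
  have h3 := Complex.hasDerivAt_log (Or.inl ht : t ∈ slitPlane)
  have h4 := (hasDerivAt_pow 4 t).mul h3
  have h5 := (((h1.add h2).add_const (2 : ℂ)).add ((hasDerivAt_pow 2 t).const_mul (3 / 2 : ℂ))).add
    (h4.const_mul (3 * AA : ℂ))
  refine h5.congr_deriv ?_
  unfold E1
  push_cast
  field_simp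
  ring

theorem E1_deriv {ψ : ℂ → ℂ} {b : ℕ → ℂ} (hb : HasLaurent ψ b) (t : ℂ) (ht : 0 < t.re) :
    HasDerivAt (E1 b) (E2 b t) t := by
  have ht0 : t ≠ 0 := by rintro rfl; simp at ht
  have h1 := (Complex.hasDerivAt_exp t).neg
  have h2 := FF_hasDeriv hb 1 ht
  have h3 := Complex.hasDerivAt_log (Or.inl ht : t ∈ slitPlane)
  have h4 := (((hasDerivAt_pow 3 t).const_mul (4 : ℂ)).mul h3).add (hasDerivAt_pow 3 t)
  have h5 := (((h1.sub h2)).add ((hasDerivAt_id t).const_mul (3 : ℂ))).add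
    (h4.const_mul (3 * AA : ℂ))
  refine h5.congr_deriv ?_
  unfold E2
  push_cast
  field_simp
  ring

theorem E2_deriv {ψ : ℂ → ℂ} {b : ℕ → ℂ} (hb : HasLaurent ψ b) (t : ℂ) (ht : 0 < t.re) :
    HasDerivAt (E2 b) (E3 b t) t := by
  have ht0 : t ≠ 0 := by rintro rfl; simp at ht
  have h1 := (Complex.hasDerivAt_exp t).neg
  have h2 := FF_hasDeriv hb 2 ht
  have h3 := Complex.hasDerivAt_log (Or.inl ht : t ∈ slitPlane)
  have h4 := (((hasDerivAt_pow 2 t).const_mul (12 : ℂ)).mul h3).add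
    ((hasDerivAt_pow 2 t).const_mul (7 : ℂ))
  have h5 := ((h1.add h2).add_const (3 : ℂ)).add (h4.const_mul (3 * AA : ℂ))
  refine h5.congr_deriv ?_
  unfold E3
  push_cast
  field_simp
  ring

theorem E3_deriv {ψ : ℂ → ℂ} {b : ℕ → ℂ} (hb : HasLaurent ψ b) (t : ℂ) (ht : 0 < t.re) :
    HasDerivAt (E3 b) (E4 b t) t := by
  have ht0 : t ≠ 0 := by rintro rfl; simp at ht
  have h1 := (Complex.hasDerivAt_exp t).neg
  have h2 := FF_hasDeriv hb 3 ht
  have h3 := Complex.hasDerivAt_log (Or.inl ht : t ∈ slitPlane)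
  have h4 := (((hasDerivAt_id t).const_mul (24 : ℂ)).mul h3).add
    ((hasDerivAt_id t).const_mul (26 : ℂ))
  have h5 := (h1.sub h2).add (h4.const_mul (3 * AA : ℂ))
  refine h5.congr_deriv ?_
  unfold E4
  simp only [id]
  field_simp
  ring

theorem E_bounds {ψ : ℂ → ℂ} {b : ℕ → ℂ} (hψ : IsExteriorMap (multibrotSet 2) ψ)
    (hb : HasLaurent ψ b) : ∃ K : ℝ, 0 < K ∧ ∀ s : ℝ, 0 < s → s ≤ (1 / 200) ^ 4 →
      ‖E0 b s‖ ≤ K * s ^ 4 ∧ ‖E1 b s‖ ≤ K * s ^ 3 ∧ ‖E2 b s‖ ≤ K * s ^ 2 ∧ ‖E3 b s‖ ≤ K * s ∧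
      ‖E4 b s‖ ≤ K := by
  have b0 : ∀ s : ℝ, 0 < s → s ≤ (1 / 200) ^ 4 → ∀ t : ℂ, ‖t - s‖ < 1 / 50 * s →
      ‖E0 b t‖ ≤ 9000 * s ^ (3 + 1) := by
    intro s hs hs1 t ht
    have h1 : ‖t - s‖ < s / 50 := by linarith
    have h2 := psi_asym hψ hs hs1 h1
    have h3 : 0 < t.re := (mem_ball_sec hs (h1.le.trans (by linarith))).1.1
    rw [psi_eq hb h3] at h2
    exact h2
  have b1 := cauchy_step (j := 3) (by norm_num) (by norm_num) (by norm_num) (E0_deriv hb) b0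
  have b2 := cauchy_step (j := 2) (by norm_num) (by norm_num) (by positivity) (E1_deriv hb) b1
  have b3 := cauchy_step (j := 1) (by norm_num) (by norm_num) (by positivity) (E2_deriv hb) b2
  have b4 := cauchy_step (j := 0) (by norm_num) (by norm_num) (by positivity) (E3_deriv hb) b3
  norm_num at b0 b1 b2 b3 b4
  refine ⟨10 ^ 30, by positivity, fun s hs hs1 => ?_⟩
  have hs1' : s ≤ 1 / 1600000000 := hs1.trans (by norm_num)
  have hs4 : (0 : ℝ) < s ^ 4 := by positivity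
  have hs3 : (0 : ℝ) < s ^ 3 := by positivity
  have hs2 : (0 : ℝ) < s ^ 2 := by positivity
  refine ⟨?_, ?_, ?_, ?_, ?_⟩
  · refine (b0 s hs hs1' s (by simpa using hs)).trans ?_
    nlinarith
  · refine (b1 s hs hs1' s (by simpa using hs)).trans ?_
    nlinarith
  · refine (b2 s hs hs1' s (by simpa using hs)).trans ?_
    nlinarith
  · refine (b3 s hs hs1' s (by simpa using hs)).trans ?_
    nlinarith
  · refine (b4 s hs hs1' s (by simpa using hs)).trans ?_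
    norm_num

end Pool.Agent.T6.H68.Tip
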